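import Pool.Agent.Helper47.KN.Defs

/-!
# Project KN: basic facts on sections
-/

set_option autoImplicit false

namespace Pool.Agent.Helper47.KN

open Equiv Pool.Agent.Helper62.GR

variable {n : ℕ} (v : ZMod (n + 2) → Bool)

theorem aF_cn (i : ZMod (n + 2)) (b : Bool) (x : X) :
    aF v i (cn b x) = cn (xor b (decide (i = 0))) (if b = v i then aF v (i - 1) x else x) := by
  funext k
  cases k with
  | zero =>
    show (if (∀ j : ℕ, j < 0 → cn b x j = v (i - (j : ZMod (n + 2)))) ∧
      i = ((0 : ℕ) : ZMod (n + 2)) then !b else b) = xor b (decide (i = 0))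
    by_cases h : i = 0
    · rw [if_pos ⟨fun j hj => absurd hj (by omega), by rw [h]; simp⟩]
      simp [h]
    · rw [if_neg]
      · simp [h]
      · rintro ⟨-, h2⟩
        exact h (by simpa using h2)
  | succ k =>
    show (if (∀ j : ℕ, j < k + 1 → cn b x j = v (i - (j : ZMod (n + 2)))) ∧
      i = ((k + 1 : ℕ) : ZMod (n + 2)) then !x k else x k) = (if b = v i then aF v (i - 1) x else x) k
    by_cases hb : b = v i
    · rw [if_pos hb]
      show _ = (if (∀ j : ℕ, j < k → x j = v (i - 1 - (j : ZMod (n + 2)))) ∧
        i - 1 = (k : ZMod (n + 2)) then !x k else x k)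
      apply if_congr _ rfl rfl
      constructor
      · rintro ⟨h1, h2⟩
        refine ⟨fun j hj => ?_, ?_⟩
        · have := h1 (j + 1) (by omega)
          rw [cn_succ] at this
          rw [this]
          congr 1
          push_cast
          ring
        · rw [h2]
          push_cast
          ring
      · rintro ⟨h1, h2⟩
        refine ⟨fun j hj => ?_, ?_⟩
        · cases j with
          | zero => simpa using hb
          | succ j =>
            rw [cn_succ, h1 j (by omega)]
            congr 1
            push_cast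
            ring
        · push_cast
          rw [← h2]
          ring
    · rw [if_neg hb, if_neg]
      rintro ⟨h1, -⟩
      apply hb
      have := h1 0 (by omega)
      simpa using this

theorem ag_cn (i : ZMod (n + 2)) (b : Bool) (x : X) :
    ag v i (cn b x) = cn (xor b (decide (i = 0))) (if b = v i then ag v (i - 1) x else x) :=
  aF_cn v i b x

/-- the wreath recursion commutes with the right multiplications -/
theorem Ph_apply (w : FreeGroup (ZMod (n + 2))) (b : Bool) (x : FreeGroup (ZMod (n + 2))) :
    Ph v w (b, x) = (xor b (fl w), sec v b w * x) := by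
  have h1 : ∀ (v : ZMod (n + 2) → Bool) (w : FreeGroup (ZMod (n + 2))) (b : Bool)
      (x : FreeGroup (ZMod (n + 2))), Ph v w (b, x) = ((Ph v w (b, 1)).1, (Ph v w (b, 1)).2 * x) := by
    intro v w
    induction w using FreeGroup.induction_on with
    | C1 => intro b x; simp
    | of i => intro b x; simp [Ph, gF]
    | inv_of i _ =>
      intro b x
      rw [map_inv]
      simp only [Ph, FreeGroup.lift_apply_of]
      show (gF v i).symm (b, x) = (((gF v i).symm (b, 1)).1, ((gF v i).symm (b, 1)).2 * x)
      simp [gF]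
    | mul x y hx hy =>
      intro b z
      rw [map_mul, Perm.mul_apply, Perm.mul_apply, hy b z, hx, hx (Ph v y (b, 1)).1 (Ph v y (b, 1)).2]
      simp [mul_assoc]
  have h2 : ∀ (v : ZMod (n + 2) → Bool) (w : FreeGroup (ZMod (n + 2))) (b : Bool)
      (x y : FreeGroup (ZMod (n + 2))), (Ph v w (b, x)).1 = xor b (fl w) := by
    intro v w
    induction w using FreeGroup.induction_on with
    | C1 => intro b x y; simp [fl]
    | of i => intro b x y; simp [Ph, gF, fl]
    | inv_of i _ =>
      intro b x y
      unfold fl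
      rw [map_inv, map_inv]
      simp only [Ph, FreeGroup.lift_apply_of]
      show ((gF v i).symm (b, x)).1 = xor b ((gF (fun _ => true) i).symm (false, 1)).1
      simp [gF]
    | mul u w hu hw =>
      intro b x y
      have e1 : (Ph v (u * w) (b, x)).1 = xor (xor b (fl w)) (fl u) := by
        rw [map_mul, Perm.mul_apply]
        have := hw b x 1
        rcases h : Ph v w (b, x) with ⟨b', x'⟩
        rw [h] at this
        rw [hu b' x' 1]
        rw [← this]
      have e2 : fl (u * w) = xor (fl w) (fl u) := by
        unfold fl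
        rw [map_mul, Perm.mul_apply]
        rcases h : Ph (fun _ => true) w (false, 1) with ⟨b', x'⟩
        have h5 := h1 (fun _ => true) u b' x'
        rw [h5]
        -- reduce to the vertex
        have h6 : ∀ (u : FreeGroup (ZMod (n + 2))) (b : Bool),
            (Ph (fun _ => true) u (b, 1)).1 = xor b (Ph (fun _ => true) u (false, 1)).1 := by
          intro u
          induction u using FreeGroup.induction_on with
          | C1 => intro b; simp
          | of i => intro b; simp [Ph, gF]
          | inv_of i _ =>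
            intro b
            rw [map_inv]
            simp only [Ph, FreeGroup.lift_apply_of]
            show ((gF (fun _ => true) i).symm (b, 1)).1 =
              xor b ((gF (fun _ => true) i).symm (false, 1)).1
            simp [gF]
          | mul x y hx hy =>
            intro b
            rw [map_mul, Perm.mul_apply, Perm.mul_apply]
            rw [show Ph (fun _ => true) y (b, 1) = ((Ph (fun _ => true) y (b, 1)).1,
              (Ph (fun _ => true) y (b, 1)).2) from rfl,
              show Ph (fun _ => true) y (false, 1) = ((Ph (fun _ => true) y (false, 1)).1,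
              (Ph (fun _ => true) y (false, 1)).2) from rfl, h1, h1 _ x _ (Ph (fun _ => true) y (false, 1)).2]
            simp only []
            rw [hx, hx (Ph (fun _ => true) y (false, 1)).1, hy b]
            cases b <;> simp
        exact h6 u b'
      rw [e1, e2, Bool.xor_assoc]
  have h3 := h1 v w b x
  have h4 := h2 v w b 1 1
  rw [h3, h4]
  rfl

theorem fl_mul (w w' : FreeGroup (ZMod (n + 2))) : fl (w * w') = xor (fl w) (fl w') := by
  have h := Ph_apply (fun _ => true) (w * w') false 1
  rw [map_mul, Perm.mul_apply, Ph_apply, Ph_apply] at h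
  have := congrArg Prod.fst h
  simp only [Bool.false_xor] at this
  rw [← this, Bool.xor_comm]

theorem fl_one : fl (1 : FreeGroup (ZMod (n + 2))) = false := by simp [fl]

theorem fl_inv (w : FreeGroup (ZMod (n + 2))) : fl w⁻¹ = fl w := by
  have h := fl_mul w⁻¹ w
  rw [inv_mul_cancel, fl_one] at h
  revert h
  cases fl w⁻¹ <;> cases fl w <;> simp

theorem fl_of (i : ZMod (n + 2)) : fl (FreeGroup.of i) = decide (i = 0) := by
  simp [fl, Ph, gF]

theorem sec_mul (b : Bool) (w w' : FreeGroup (ZMod (n + 2))) :
    sec v b (w * w') = sec v (xor b (fl w')) w * sec v b w' := by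
  have h : Ph v (w * w') (b, 1) = Ph v w (Ph v w' (b, 1)) := by rw [map_mul, Perm.mul_apply]
  rw [Ph_apply, Ph_apply, Ph_apply] at h
  have := congrArg Prod.snd h
  simpa using this

theorem sec_one (b : Bool) : sec v b 1 = 1 := by simp [sec]

theorem sec_inv (b : Bool) (w : FreeGroup (ZMod (n + 2))) :
    sec v b w⁻¹ = (sec v (xor b (fl w)) w)⁻¹ := by
  have h := sec_mul v (xor b (fl w)) w⁻¹ w
  rw [inv_mul_cancel, sec_one, Bool.xor_assoc, Bool.xor_self, Bool.xor_false] at h
  exact eq_inv_of_mul_eq_one_left h.symm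

theorem sec_of (b : Bool) (i : ZMod (n + 2)) :
    sec v b (FreeGroup.of i) = if b = v i then FreeGroup.of (i - 1) else 1 := by
  simp [sec, Ph, gF, sL]

/-- for `w` which fixes the first level the section is multiplicative -/
theorem sec_mul_of (b : Bool) (w w' : FreeGroup (ZMod (n + 2))) (h : fl w' = false) :
    sec v b (w * w') = sec v b w * sec v b w' := by
  rw [sec_mul, h, Bool.xor_false]

theorem ev_of (i : ZMod (n + 2)) : ev v (FreeGroup.of i) = ag v i := by simp [ev]

theorem ev_cn (w : FreeGroup (ZMod (n + 2))) : ∀ (b : Bool) (x : X),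
    ev v w (cn b x) = cn (xor b (fl w)) (ev v (sec v b w) x) := by
  induction w using FreeGroup.induction_on with
  | C1 => intro b x; rw [fl_one, sec_one]; simp
  | of i =>
    intro b x
    rw [ev_of, ag_cn, fl_of, sec_of]
    split_ifs with h
    · rw [ev_of]
    · rw [map_one, Perm.one_apply]
  | inv_of i h =>
    intro b x
    rw [map_inv, Perm.inv_eq_iff_eq, h, sec_inv, fl_inv, Bool.xor_assoc, Bool.xor_self,
      Bool.xor_false, map_inv, ← Perm.mul_apply, mul_inv_cancel, Perm.one_apply]
  | mul w w' hw hw' =>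
    intro b x
    rw [map_mul, Perm.mul_apply, hw', hw, sec_mul, fl_mul, map_mul, Perm.mul_apply]
    congr 1
    cases b <;> cases fl w <;> cases fl w' <;> rfl

theorem KG_eq : KG v = (ev v).range := by
  unfold KG ev
  rw [FreeGroup.range_lift_eq_closure]

theorem ev_mem (w : FreeGroup (ZMod (n + 2))) : ev v w ∈ KG v := by
  rw [KG_eq]
  exact ⟨w, rfl⟩

theorem exists_ev {g : Perm X} (hg : g ∈ KG v) : ∃ w, ev v w = g := by
  rw [KG_eq] at hg
  exact hg

theorem mem_NN {w : FreeGroup (ZMod (n + 2))} : w ∈ NN v ↔ ev v w = 1 := Iff.rfl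

theorem mem_NN_iff (w : FreeGroup (ZMod (n + 2))) :
    w ∈ NN v ↔ fl w = false ∧ ∀ b, sec v b w ∈ NN v := by
  constructor
  · intro h
    rw [mem_NN] at h
    have h1 : ∀ b x, cn (xor b (fl w)) (ev v (sec v b w) x) = cn b x := by
      intro b x
      rw [← ev_cn, h, Perm.one_apply]
    refine ⟨?_, fun b => ?_⟩
    · have := (cn_inj (h1 false fun _ => true)).1
      simpa using this
    · rw [mem_NN]
      ext1 x
      exact (cn_inj (h1 b x)).2
  · rintro ⟨h1, h2⟩
    rw [mem_NN]
    apply perm_ext
    intro b x
    rw [ev_cn, h1, h2 b, Bool.xor_false]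
    rfl

theorem fl_of_NN {w : FreeGroup (ZMod (n + 2))} (h : w ∈ NN v) : fl w = false :=
  ((mem_NN_iff v w).1 h).1

theorem sec_mem_NN {w : FreeGroup (ZMod (n + 2))} (h : w ∈ NN v) (b : Bool) : sec v b w ∈ NN v :=
  ((mem_NN_iff v w).1 h).2 b

theorem ta_mem_NN {w : FreeGroup (ZMod (n + 2))} (h : w ∈ NN v) : ta v w ∈ NN v :=
  (NN v).mul_mem (sec_mem_NN v h false) (sec_mem_NN v h true)

instance NN_normal : (NN v).Normal := by
  unfold NN
  infer_instance

/-- the words act by automorphisms of the tree -/
theorem agr_ev : ∀ (k : ℕ) (w : FreeGroup (ZMod (n + 2))) (x y : X),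
    Agr k (ev v w x) (ev v w y) ↔ Agr k x y := by
  intro k
  induction k with
  | zero => exact fun w x y => ⟨fun _ => Agr_zero _ _, fun _ => Agr_zero _ _⟩
  | succ k ih =>
    intro w x y
    rw [← cn_tl x, ← cn_tl y, ev_cn, ev_cn, Agr_cn, Agr_cn]
    constructor
    · rintro ⟨h1, h2⟩
      have h3 : x 0 = y 0 := by
        revert h1
        cases x 0 <;> cases y 0 <;> cases fl w <;> simp
      rw [h3] at h2
      exact ⟨h3, (ih _ _ _).1 h2⟩
    · rintro ⟨h1, h2⟩
      rw [h1]
      exact ⟨rfl, (ih _ _ _).2 h2⟩

/-! ### the endomorphism `φ` -/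

theorem phi_of (j : ZMod (n + 2)) : phi v (FreeGroup.of j) = phL v j := by simp [phi]

theorem fl_phi (w : FreeGroup (ZMod (n + 2))) : fl (phi v w) = false := by
  induction w using FreeGroup.induction_on with
  | C1 => rw [map_one, fl_one]
  | of j =>
    rw [phi_of]
    unfold phL
    split_ifs with h1 h2
    · rw [fl_mul, Bool.xor_self]
    · rw [fl_of]
      simp [h1]
    · rw [fl_mul, fl_mul, fl_inv, fl_of, fl_of]
      simp [h1]
  | inv_of j h => rw [map_inv, fl_inv, h]
  | mul x y hx hy => rw [map_mul, fl_mul, hx, hy]; rfl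

theorem sec_phi (w : FreeGroup (ZMod (n + 2))) : sec v (v 0) (phi v w) = w := by
  induction w using FreeGroup.induction_on with
  | C1 => rw [map_one, sec_one]
  | of j =>
    rw [phi_of]
    unfold phL
    split_ifs with h1 h2
    · rw [sec_mul, fl_of, sec_of, sec_of]
      have h3 : j = 0 - 1 := by linear_combination h1
      simp [h3]
    · rw [sec_of, if_pos h2.symm]
      congr 1
      ring
    · rw [sec_mul, sec_mul, fl_inv, fl_of, sec_inv, sec_of, sec_of, sec_of]
      have h3 : (!v 0) = v (j + 1) := by
        revert h2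
        cases v 0 <;> cases v (j + 1) <;> simp
      simp [fl_of, h1, h3, h2]
  | inv_of j h => rw [map_inv, sec_inv, fl_phi, Bool.xor_false, h]
  | mul x y hx hy => rw [map_mul, sec_mul_of v _ _ _ (fl_phi v y), hx, hy]

/-- the other section of `φ w` -/
theorem sec_phi' (w : FreeGroup (ZMod (n + 2))) :
    sec v (!v 0) (phi v w) = FreeGroup.of (-1) ^ (Multiplicative.toAdd (ex (-1) w)) := by
  induction w using FreeGroup.induction_on with
  | C1 => rw [map_one, sec_one]; simp
  | of j =>
    rw [phi_of]
    have hex : Multiplicative.toAdd (ex (-1) (FreeGroup.of j)) = if j = -1 then 1 else 0 := by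
      simp [ex]
    rw [hex]
    unfold phL
    by_cases h1 : j + 1 = 0
    · have h3 : j = -1 := by linear_combination h1
      rw [if_pos h1, if_pos h3, sec_mul, fl_of, sec_of, sec_of]
      simp
    · have h3 : ¬ j = -1 := fun h => h1 (by rw [h]; ring)
      rw [if_neg h1, if_neg h3]
      split_ifs with h2
      · rw [sec_of]
        simp [h2]
      · rw [sec_mul, sec_mul, fl_inv, fl_of, sec_inv, sec_of, sec_of, sec_of]
        have h4 : ¬ v 0 = v (j + 1) := fun h => h2 h.symm
        simp [fl_of, h1, h4]
  | inv_of j h => rw [map_inv, sec_inv, fl_phi, Bool.xor_false, h, map_inv, toAdd_inv, zpow_neg]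
  | mul x y hx hy =>
    rw [map_mul, sec_mul_of v _ _ _ (fl_phi v y), hx, hy, map_mul, toAdd_mul, zpow_add]

/-- sections are arbitrary -/
theorem selfrep {g : Perm X} (hg : g ∈ KG v) (b : Bool) :
    ∃ h ∈ KG v, ∀ x, h (cn b x) = cn b (g x) := by
  obtain ⟨w, rfl⟩ := exists_ev v hg
  by_cases hb : b = v 0
  · refine ⟨ev v (phi v w), ev_mem v _, fun x => ?_⟩
    rw [ev_cn, fl_phi, hb, sec_phi, Bool.xor_false]
  · refine ⟨ev v ((FreeGroup.of 0)⁻¹ * phi v w * FreeGroup.of 0), ev_mem v _, fun x => ?_⟩
    have hb' : b = !v 0 := by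
      revert hb
      cases b <;> cases v 0 <;> simp
    rw [ev_cn]
    have h1 : fl ((FreeGroup.of 0)⁻¹ * phi v w * FreeGroup.of (0 : ZMod (n + 2))) = false := by
      rw [fl_mul, fl_mul, fl_inv, fl_phi]
      simp
    have h2 : sec v b ((FreeGroup.of 0)⁻¹ * phi v w * FreeGroup.of (0 : ZMod (n + 2))) = w := by
      rw [sec_mul, sec_mul, fl_of, sec_of, fl_phi, sec_inv, fl_of, sec_of, hb']
      simp [sec_phi]
    rw [h1, h2, Bool.xor_false]

theorem ag_mem (i : ZMod (n + 2)) : ag v i ∈ KG v := Subgroup.subset_closure ⟨i, rfl⟩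

/-- induction over the group -/
theorem KG_induction {P : Perm X → Prop} (h : ∀ w : FreeGroup (ZMod (n + 2)), P (ev v w)) :
    ∀ g ∈ KG v, P g := by
  intro g hg
  obtain ⟨w, rfl⟩ := exists_ev v hg
  exact h w

end Pool.Agent.Helper47.KN
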