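import Pool.Agent.Helper62.GR.Basic

/-!
# Project KN (MP_08df5f_al): kneading groups and their ascending HNN extensions, definitions

`X = ℕ → Bool`.  For `v : ZMod (n + 2) → Bool` the kneading group `KG v` is generated by the
permutations `a_i = ag v i` of `X`, `i ∈ ZMod (n + 2)`: `a_i (b x) = b' (a_(i-1) x)` if `b = v i` and
`a_i (b x) = b' x` otherwise, where `b' = b` for `i ≠ 0` and `b' = !b` for `i = 0` (the indices are
cyclic).
-/

set_option autoImplicit false

namespace Pool.Agent.Helper47.KN

open Equiv Pool.Agent.Helper62.GR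

variable {n : ℕ}

/-- `v` with the value at `0` changed -/
def vp (v : ZMod (n + 2) → Bool) (i : ZMod (n + 2)) : Bool := if i = 0 then !v 0 else v i

theorem vp_vp (v : ZMod (n + 2) → Bool) : vp (vp v) = v := by
  funext i
  by_cases h : i = 0
  · subst h
    simp [vp]
  · simp [vp, h]

theorem vp_eq (v : ZMod (n + 2) → Bool) (i : ZMod (n + 2)) : vp v i = xor (v i) (decide (i = 0)) := by
  by_cases h : i = 0
  · subst h
    simp [vp]
  · simp [vp, h]

/-- the generator `a_i`: the letter at the position `k` is changed if `k ≡ i` modulo `n + 2` and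
`x_j = v (i - j)` for all `j < k` -/
def aF (v : ZMod (n + 2) → Bool) (i : ZMod (n + 2)) (x : X) : X := fun k =>
  if (∀ j : ℕ, j < k → x j = v (i - (j : ZMod (n + 2)))) ∧ i = (k : ZMod (n + 2)) then !x k else x k

theorem aF_pre (v : ZMod (n + 2) → Bool) (i : ZMod (n + 2)) (x : X) (k : ℕ) :
    (∀ j : ℕ, j < k → aF v i x j = vp v (i - (j : ZMod (n + 2)))) ↔
      ∀ j : ℕ, j < k → x j = v (i - (j : ZMod (n + 2))) := by
  induction k with
  | zero => simp
  | succ k ih =>
    have key : (∀ j : ℕ, j < k → x j = v (i - (j : ZMod (n + 2)))) →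
        (aF v i x k = vp v (i - (k : ZMod (n + 2))) ↔ x k = v (i - (k : ZMod (n + 2)))) := by
      intro h
      have h1 : aF v i x k = xor (x k) (decide (i - (k : ZMod (n + 2)) = 0)) := by
        unfold aF
        by_cases h2 : i = (k : ZMod (n + 2))
        · rw [if_pos ⟨h, h2⟩]
          simp [h2]
        · rw [if_neg (fun h3 => h2 h3.2)]
          have : ¬ (i - (k : ZMod (n + 2)) = 0) := fun h3 => h2 (sub_eq_zero.1 h3)
          simp [this]
      rw [h1, vp_eq]
      constructor
      · intro h2
        have := congrArg (fun c => xor c (decide (i - (k : ZMod (n + 2)) = 0))) h2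
        simpa using this
      · intro h2
        rw [h2]
    constructor
    · intro h j hj
      have h1 := ih.1 fun j hj => h j (by omega)
      rcases Nat.lt_succ_iff_lt_or_eq.1 hj with h2 | rfl
      · exact h1 j h2
      · exact (key h1).1 (h j (by omega))
    · intro h j hj
      have h0 : ∀ j : ℕ, j < k → x j = v (i - (j : ZMod (n + 2))) := fun j hj => h j (by omega)
      have h1 := ih.2 h0
      rcases Nat.lt_succ_iff_lt_or_eq.1 hj with h2 | rfl
      · exact h1 j h2
      · exact (key h0).2 (h j (by omega))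

theorem aF_aF (v : ZMod (n + 2) → Bool) (i : ZMod (n + 2)) (x : X) : aF (vp v) i (aF v i x) = x := by
  funext k
  have h : ((∀ j : ℕ, j < k → aF v i x j = vp v (i - (j : ZMod (n + 2)))) ∧
      i = (k : ZMod (n + 2))) ↔ ((∀ j : ℕ, j < k → x j = v (i - (j : ZMod (n + 2)))) ∧
      i = (k : ZMod (n + 2))) := by rw [aF_pre]
  show (if (∀ j : ℕ, j < k → aF v i x j = vp v (i - (j : ZMod (n + 2)))) ∧
      i = (k : ZMod (n + 2)) then !aF v i x k else aF v i x k) = x k
  rw [if_congr h rfl rfl]
  unfold aF
  split_ifs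
  · simp
  · rfl

/-- the generator `a_i` of the kneading group -/
def ag (v : ZMod (n + 2) → Bool) (i : ZMod (n + 2)) : Perm X where
  toFun := aF v i
  invFun := aF (vp v) i
  left_inv := aF_aF v i
  right_inv x := by
    have h := aF_aF (vp v) i x
    rwa [vp_vp] at h

/-- the kneading group -/
def KG (v : ZMod (n + 2) → Bool) : Subgroup (Perm X) := Subgroup.closure (Set.range (ag v))

/-! ### the free group -/

/-- evaluation of the words -/
def ev (v : ZMod (n + 2) → Bool) : FreeGroup (ZMod (n + 2)) →* Perm X := FreeGroup.lift (ag v)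

/-- the relations of the kneading group -/
def NN (v : ZMod (n + 2) → Bool) : Subgroup (FreeGroup (ZMod (n + 2))) := (ev v).ker

/-- the section of a letter at the vertex `b` -/
def sL (v : ZMod (n + 2) → Bool) (b : Bool) (i : ZMod (n + 2)) : FreeGroup (ZMod (n + 2)) :=
  if b = v i then FreeGroup.of (i - 1) else 1

/-- the wreath recursion of a letter -/
def gF (v : ZMod (n + 2) → Bool) (i : ZMod (n + 2)) : Perm (Bool × FreeGroup (ZMod (n + 2))) where
  toFun p := (xor p.1 (decide (i = 0)), sL v p.1 i * p.2)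
  invFun p := (xor p.1 (decide (i = 0)), (sL v (xor p.1 (decide (i = 0))) i)⁻¹ * p.2)
  left_inv p := by
    ext <;> simp
  right_inv p := by
    ext <;> simp

/-- the wreath recursion on the free group -/
def Ph (v : ZMod (n + 2) → Bool) :
    FreeGroup (ZMod (n + 2)) →* Perm (Bool × FreeGroup (ZMod (n + 2))) := FreeGroup.lift (gF v)

/-- the section of `w` at the vertex `b` -/
def sec (v : ZMod (n + 2) → Bool) (b : Bool) (w : FreeGroup (ZMod (n + 2))) :
    FreeGroup (ZMod (n + 2)) := (Ph v w (b, 1)).2

/-- whether `w` interchanges the vertices of the first level -/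
def fl (w : FreeGroup (ZMod (n + 2))) : Bool := (Ph (fun _ => true) w (false, 1)).1

/-- the exponent sum of the letter `i` -/
def ex (i : ZMod (n + 2)) : FreeGroup (ZMod (n + 2)) →* Multiplicative ℤ :=
  FreeGroup.lift fun j => Multiplicative.ofAdd (if j = i then 1 else 0)

/-- the product of the two sections -/
def ta (v : ZMod (n + 2) → Bool) (w : FreeGroup (ZMod (n + 2))) : FreeGroup (ZMod (n + 2)) :=
  sec v false w * sec v true w

/-- the lift of the word `w` to the vertex `v 0`, on letters -/
def phL (v : ZMod (n + 2) → Bool) (j : ZMod (n + 2)) : FreeGroup (ZMod (n + 2)) :=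
  if j + 1 = 0 then FreeGroup.of 0 * FreeGroup.of 0
  else if v (j + 1) = v 0 then FreeGroup.of (j + 1)
  else FreeGroup.of 0 * FreeGroup.of (j + 1) * (FreeGroup.of 0)⁻¹

/-- the endomorphism `φ` of the free group: the section of `φ w` at the vertex `v 0` is `w` -/
def phi (v : ZMod (n + 2) → Bool) : FreeGroup (ZMod (n + 2)) →* FreeGroup (ZMod (n + 2)) :=
  FreeGroup.lift (phL v)

/-- the sequence of subgroups `K_k` (as sets): `K_0 = [F, N]`, `K_(k+1) = {r ∈ N : τ r ∈ K_k}` -/
def KK (v : ZMod (n + 2) → Bool) : ℕ → Set (FreeGroup (ZMod (n + 2)))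
  | 0 => (⁅(⊤ : Subgroup (FreeGroup (ZMod (n + 2)))), NN v⁆ : Subgroup _)
  | k + 1 => {r | r ∈ NN v ∧ ta v r ∈ KK v k}

/-- all sections of `w` of level `k` are trivial words, and `w` fixes the vertices of level `k` -/
def Dep (v : ZMod (n + 2) → Bool) : ℕ → FreeGroup (ZMod (n + 2)) → Prop
  | 0, w => w = 1
  | k + 1, w => fl w = false ∧ ∀ b, Dep v k (sec v b w)

end Pool.Agent.Helper47.KN
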