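import Pool.Agent.Helper47.KN.ST

/-!
# Project KN: the main step (FIN)
-/

set_option autoImplicit false

namespace Pool.Agent.Helper47.KN

open Equiv Pool.Agent.Helper62.GR Pool.Agent.Helper62.WB
open scoped commutatorElement

/-- the map of the free group onto the kneading group -/
def piK {n : ℕ} (v : ZMod (n + 2) → Bool) : FreeGroup (ZMod (n + 2)) →* KG v :=
  (ev v).codRestrict (KG v) (ev_mem v)

theorem piK_coe {n : ℕ} (v : ZMod (n + 2) → Bool) (w : FreeGroup (ZMod (n + 2))) :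
    ((piK v w : KG v) : Perm X) = ev v w := rfl

theorem piK_surj {n : ℕ} (v : ZMod (n + 2) → Bool) : Function.Surjective (piK v) := by
  intro g
  obtain ⟨w, hw⟩ := exists_ev v g.2
  exact ⟨w, Subtype.ext hw⟩

theorem piK_ker {n : ℕ} (v : ZMod (n + 2) → Bool) : (piK v).ker = NN v := by
  ext w
  rw [MonoidHom.mem_ker, mem_NN]
  constructor
  · intro h
    exact congrArg Subtype.val h
  · intro h
    exact Subtype.ext h

theorem ex_NN (hDEP : K_DEP) (hEX : K_EX) {n : ℕ} (v : ZMod (n + 2) → Bool)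
    {w : FreeGroup (ZMod (n + 2))} (hw : w ∈ NN v) (i : ZMod (n + 2)) : ex i w = 1 := by
  obtain ⟨k, hk⟩ := hDEP n v w hw
  exact hEX.2.1 n v k w hk i

theorem phi_NN (hDEP : K_DEP) (hEX : K_EX) {n : ℕ} (v : ZMod (n + 2) → Bool)
    {w : FreeGroup (ZMod (n + 2))} (hw : w ∈ NN v) : phi v w ∈ NN v ∧ ta v (phi v w) = w := by
  have h1 : sec v (!v 0) (phi v w) = 1 := by
    rw [sec_phi', ex_NN hDEP hEX v hw]
    simp
  have h2 := sec_phi v w
  constructor
  · rw [mem_NN_iff]
    refine ⟨fl_phi v w, fun b => ?_⟩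
    by_cases hb : b = v 0
    · rw [hb, h2]
      exact hw
    · have hb' : b = !v 0 := by
        revert hb
        cases b <;> cases v 0 <;> simp
      rw [hb', h1]
      exact (NN v).one_mem
  · unfold ta
    cases h : v 0
    · rw [h] at h1 h2
      rw [h2]
      have h3 : sec v true (phi v w) = 1 := h1
      rw [h3, mul_one]
    · rw [h] at h1 h2
      rw [h2]
      have h3 : sec v false (phi v w) = 1 := h1
      rw [h3, one_mul]

theorem phi_iter (hDEP : K_DEP) (hEX : K_EX) {n : ℕ} (v : ZMod (n + 2) → Bool)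
    {w : FreeGroup (ZMod (n + 2))} (hw : w ∈ NN v) (k : ℕ) :
    (phi v)^[k] w ∈ NN v ∧ (ta v)^[k] ((phi v)^[k] w) = w := by
  induction k with
  | zero => exact ⟨hw, rfl⟩
  | succ k ih =>
    obtain ⟨h1, h2⟩ := phi_NN hDEP hEX v ih.1
    rw [Function.iterate_succ_apply', Function.iterate_succ_apply]
    refine ⟨h1, ?_⟩
    rw [h2]
    exact ih.2

theorem fin_of (hLR : K_LR) (hDEP : K_DEP) (hEX : K_EX) (hKS : K_KS) (hNAT : K_NAT) (hDN : K_DN)
    (hFR : K_FR) (hRS : K_RS) (hCH : K_CH) : K_FIN := by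
  intro n v σ hσ hRF hFP
  have hst := st (KG v) (hLR n v) (KG_fg v) σ hσ
  have hd : Dsg σ := hst.1.1 hRF
  obtain ⟨f, hf1, hf2, hf3⟩ := hst.2 hd
  have hconj : ∀ g : KG v, f * (g : Perm X) * f⁻¹ = (σ g : Perm X) := by
    intro g
    rw [hf3, mul_assoc, mul_inv_cancel, mul_one]
  have hSN : SNg (KG v) f := by
    refine ⟨hf1, hf2, fun g hg => ?_, fun m g hg => ?_⟩
    · have := hconj ⟨g, hg⟩
      change f * g * f⁻¹ = _ at this
      rw [this]
      exact (σ ⟨g, hg⟩).2
    · obtain ⟨h, hh⟩ := hd m ⟨g, hg⟩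
      refine ⟨h, h.2, fun x => ?_⟩
      rw [hconj]
      exact hh x
  -- the lift
  have hch : ∀ i, ∃ w, piK v w = σ (piK v (FreeGroup.of i)) := fun i => piK_surj v _
  choose wl hwl using hch
  set α : FreeGroup (ZMod (n + 2)) →* FreeGroup (ZMod (n + 2)) := FreeGroup.lift wl with hα
  have hπα : ∀ w, piK v (α w) = σ (piK v w) := by
    intro w
    have : (piK v).comp α = σ.comp (piK v) := by
      ext i
      simp only [MonoidHom.comp_apply, hα, FreeGroup.lift_apply_of]
      rw [hwl]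
    exact DFunLike.congr_fun this w
  have hLft : Lft v f α := by
    intro w
    rw [← piK_coe, hπα, ← hconj, piK_coe]
  have hαN : ∀ r ∈ NN v, α r ∈ NN v := by
    intro r hr
    rw [mem_NN, hLft, (mem_NN v).1 hr, mul_one, mul_inv_cancel]
  obtain ⟨hK1, hK2, hK3, hK4, hK5⟩ := hKS n v
  choose K hKn hKK using hK1
  have hKle : ∀ k, K k ≤ NN v := by
    intro k w hw
    apply hK3 k
    rw [← hKK k]
    exact hw
  have hmono : Monotone K := by
    apply monotone_nat_of_le_succ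
    intro k w hw
    have h1 : w ∈ KK v k := by rw [← hKK]; exact hw
    have h2 : w ∈ KK v (k + 1) := hK2 k h1
    rw [← hKK] at h2
    exact h2
  have hL0 : ∀ (f' : Perm X) (α' : FreeGroup (ZMod (n + 2)) →* FreeGroup (ZMod (n + 2))),
      Lft v f' α' → ∀ r ∈ KK v 0, α' r ∈ KK v 0 := by
    intro f' α' hL r hr
    have h1 : ∀ x ∈ NN v, α' x ∈ NN v := by
      intro x hx
      rw [mem_NN, hL, (mem_NN v).1 hx, mul_one, mul_inv_cancel]
    have h2 : (⁅(⊤ : Subgroup (FreeGroup (ZMod (n + 2)))), NN v⁆ : Subgroup _) ≤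
        (⁅(⊤ : Subgroup (FreeGroup (ZMod (n + 2)))), NN v⁆ : Subgroup _).comap α' := by
      rw [Subgroup.commutator_le]
      intro x _ y hy
      show α' ⁅x, y⁆ ∈ (⁅(⊤ : Subgroup (FreeGroup (ZMod (n + 2)))), NN v⁆ : Subgroup _)
      rw [map_commutatorElement]
      exact Subgroup.commutator_mem_commutator (Subgroup.mem_top _) (h1 y hy)
    exact h2 hr
  have hK0mul : ∀ x y, x ∈ KK v 0 → y ∈ KK v 0 → x * y ∈ KK v 0 := by
    intro x y hx hy
    exact (⁅(⊤ : Subgroup (FreeGroup (ZMod (n + 2)))), NN v⁆ : Subgroup _).mul_mem hx hy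
  have hαK : ∀ k, ∀ w ∈ K k, α w ∈ K k := by
    intro k w hw
    have h1 : w ∈ KK v k := by rw [← hKK]; exact hw
    obtain ⟨h2, h3⟩ := (hK5 k w).1 h1
    obtain ⟨f', α', hf', hα', h4⟩ := hNAT n v f α hSN hLft k
    have h5 := hK0mul _ _ (h4 w h2) (hL0 f' α' hα' _ h3)
    rw [inv_mul_cancel_right] at h5
    have h6 : α w ∈ KK v k := (hK5 k _).2 ⟨hαN w h2, h5⟩
    rw [← hKK] at h6
    exact h6
  have hker := piK_ker v
  obtain ⟨V, hVn, hV1, hV2, hV3⟩ := hFR (ZMod (n + 2)) (NN v) inferInstance (hRS n v)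
  obtain ⟨k, hk⟩ := hCH (ZMod (n + 2)) (KG v) (piK v) (piK_surj v) σ hσ α hπα K hKn hmono
    (by rw [hker]; exact hKle)
    (by
      rw [hker]
      intro w hw
      obtain ⟨k, hk⟩ := hK4 w hw
      refine ⟨k, ?_⟩
      rw [← hKK] at hk
      exact hk) hαK hFP
  rw [hker] at hk
  obtain ⟨y, hyN, hyV⟩ := SetLike.not_le_iff_exists.1 hV2
  obtain ⟨hr1, hr2⟩ := phi_iter hDEP hEX v hyN k
  obtain ⟨m, hm⟩ := hk _ hr1
  obtain ⟨f', α', hf', hα', hnat⟩ := hNAT n v f α hSN hLft k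
  have hiterN : ∀ (m : ℕ), α^[m] ((phi v)^[k] y) ∈ NN v := by
    intro m
    induction m with
    | zero => exact hr1
    | succ m ih => rw [Function.iterate_succ_apply']; exact hαN _ ih
  have hiter : ∀ m : ℕ, (ta v)^[k] (α^[m] ((phi v)^[k] y)) * (α'^[m] y)⁻¹ ∈ KK v 0 := by
    intro m
    induction m with
    | zero =>
      rw [Function.iterate_zero_apply, Function.iterate_zero_apply, hr2, mul_inv_cancel]
      exact (⁅(⊤ : Subgroup (FreeGroup (ZMod (n + 2)))), NN v⁆ : Subgroup _).one_mem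
    | succ m ih =>
      rw [Function.iterate_succ_apply', Function.iterate_succ_apply']
      have h1 := hnat _ (hiterN m)
      have h2 := hL0 f' α' hα' _ ih
      rw [map_mul, map_inv] at h2
      have h3 := hK0mul _ _ h1 h2
      have h4 : ∀ a b c : FreeGroup (ZMod (n + 2)), a * b⁻¹ * (b * c⁻¹) = a * c⁻¹ := by
        intro a b c
        group
      rwa [h4] at h3
  have h5 : (ta v)^[k] (α^[m] ((phi v)^[k] y)) ∈ KK v 0 := by
    have h6 : α^[m] ((phi v)^[k] y) ∈ KK v k := by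
      rw [← hKK]
      exact hm
    exact ((hK5 k _).1 h6).2
  have h7 : α'^[m] y ∈ V := by
    apply hV1
    have h8 := (⁅(⊤ : Subgroup (FreeGroup (ZMod (n + 2)))), NN v⁆ : Subgroup _).mul_mem
      ((⁅(⊤ : Subgroup (FreeGroup (ZMod (n + 2)))), NN v⁆ : Subgroup _).inv_mem (hiter m)) h5
    rw [mul_inv_rev, inv_inv, inv_mul_cancel_right] at h8
    exact h8
  have h8 : ∀ m : ℕ, α'^[m] y ∈ V → y ∈ V := by
    intro m
    induction m with
    | zero => exact id
    | succ m ih =>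
      intro h
      rw [Function.iterate_succ_apply'] at h
      exact ih ((hV3 α' (hDN n v f' α' hf' hα') _).1 h)
  exact hyV (h8 m h7)

end Pool.Agent.Helper47.KN
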