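import Pool.Agent.Helper47.KN.NAT

/-!
# Project KN: packet KS
-/

set_option autoImplicit false

namespace Pool.Agent.Helper47.KN

open Equiv Pool.Agent.Helper62.GR

open scoped commutatorElement

section

variable {n : ℕ} (v : ZMod (n + 2) → Bool)

theorem mem_of_qq {S : Subgroup (FreeGroup (ZMod (n + 2)))} (hS : K0 v ≤ S)
    {x y : FreeGroup (ZMod (n + 2))} (h : qq v x = qq v y) (hy : y ∈ S) : x ∈ S := by
  have h1 : y⁻¹ * x ∈ K0 v := by
    rw [← qq_eq_one, map_mul, map_inv, h, inv_mul_cancel]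
  have h2 := S.mul_mem hy (hS h1)
  rwa [mul_inv_cancel_left] at h2

theorem qq_ta_conj {x : FreeGroup (ZMod (n + 2))} (hx : x ∈ NN v) (g : FreeGroup (ZMod (n + 2))) :
    qq v (ta v (g * x * g⁻¹)) = qq v (ta v x) := by
  have h1 : ∀ b, qq v (sec v b (g * x * g⁻¹)) = qq v (sec v (xor b (fl g)) x) := by
    intro b
    rw [sec_mul, sec_mul, fl_inv, sec_inv, fl_of_NN v hx, Bool.xor_false, map_mul, map_mul,
      qq_comm v (sec_mem_NN v hx _), mul_assoc, ← map_mul, mul_inv_cancel, map_one, mul_one]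
  unfold ta
  rw [map_mul, map_mul, h1, h1]
  cases fl g
  · rfl
  · simp only [Bool.xor_true, Bool.not_false, Bool.not_true]
    exact qq_comm v (sec_mem_NN v hx _) _

theorem ta_one : ta v 1 = 1 := by
  unfold ta
  rw [sec_one, sec_one, one_mul]

theorem ta_K0 {z : FreeGroup (ZMod (n + 2))} (hz : z ∈ K0 v) : ta v z ∈ K0 v := by
  let S : Subgroup (FreeGroup (ZMod (n + 2))) :=
    { carrier := {r | r ∈ NN v ∧ qq v (ta v r) = 1}
      mul_mem' := by
        rintro a b ⟨ha, ha'⟩ ⟨hb, hb'⟩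
        refine ⟨(NN v).mul_mem ha hb, ?_⟩
        rw [qq_ta_mul v ha hb, ha', hb', one_mul]
      one_mem' := ⟨(NN v).one_mem, by rw [ta_one, map_one]⟩
      inv_mem' := by
        rintro a ⟨ha, ha'⟩
        refine ⟨(NN v).inv_mem ha, ?_⟩
        have h := qq_ta_mul v ha ((NN v).inv_mem ha)
        rw [mul_inv_cancel, ta_one, map_one, ha', one_mul] at h
        exact h.symm }
  have h : K0 v ≤ S := by
    unfold K0
    rw [Subgroup.commutator_le]
    intro f _ r hr
    refine ⟨K0_le v (Subgroup.commutator_mem_commutator (Subgroup.mem_top f) hr), ?_⟩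
    rw [commutatorElement_def, qq_ta_mul v ((NN_normal v).conj_mem r hr f) ((NN v).inv_mem hr),
      qq_ta_conj v hr, ← qq_ta_mul v hr ((NN v).inv_mem hr), mul_inv_cancel, ta_one, map_one]
  exact (qq_eq_one v _).1 (h hz).2

theorem exists_S : ∀ k, ∃ S : Subgroup (FreeGroup (ZMod (n + 2))), S.Normal ∧ (S : Set _) = KK v k ∧
    K0 v ≤ S ∧ S ≤ NN v := by
  intro k
  induction k with
  | zero => exact ⟨K0 v, K0_normal v, rfl, le_rfl, K0_le v⟩
  | succ k ih =>
    obtain ⟨S, hS, hSe, h0, hN⟩ := ih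
    let T : Subgroup (FreeGroup (ZMod (n + 2))) :=
      { carrier := {r | r ∈ NN v ∧ ta v r ∈ S}
        mul_mem' := by
          rintro a b ⟨ha, ha'⟩ ⟨hb, hb'⟩
          refine ⟨(NN v).mul_mem ha hb, ?_⟩
          refine mem_of_qq v h0 ?_ (S.mul_mem ha' hb')
          rw [qq_ta_mul v ha hb, map_mul]
        one_mem' := ⟨(NN v).one_mem, by rw [ta_one]; exact S.one_mem⟩
        inv_mem' := by
          rintro a ⟨ha, ha'⟩
          refine ⟨(NN v).inv_mem ha, ?_⟩
          refine mem_of_qq v h0 ?_ (S.inv_mem ha')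
          have h := qq_ta_mul v ha ((NN v).inv_mem ha)
          rw [mul_inv_cancel, ta_one, map_one] at h
          rw [map_inv]
          exact (inv_eq_of_mul_eq_one_right h.symm).symm }
    refine ⟨T, ⟨?_⟩, ?_, ?_, ?_⟩
    · rintro a ⟨ha, ha'⟩ g
      exact ⟨(NN_normal v).conj_mem a ha g, mem_of_qq v h0 (qq_ta_conj v ha g) ha'⟩
    · ext r
      show (r ∈ NN v ∧ ta v r ∈ S) ↔ (r ∈ NN v ∧ ta v r ∈ KK v k)
      rw [← hSe]
      rfl
    · intro z hz
      exact ⟨K0_le v hz, h0 (ta_K0 v hz)⟩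
    · intro z hz
      exact hz.1

theorem KK_mono_succ : ∀ k, KK v k ⊆ KK v (k + 1) := by
  intro k
  induction k with
  | zero => exact fun z hz => ⟨K0_le v hz, ta_K0 v hz⟩
  | succ k ih => exact fun z hz => ⟨hz.1, ih hz.2⟩

theorem KK_sub : ∀ k, KK v k ⊆ NN v := by
  intro k
  obtain ⟨S, _, h, _, h2⟩ := exists_S v k
  rw [← h]
  exact h2

theorem KK_of_dep : ∀ (k : ℕ) (w : FreeGroup (ZMod (n + 2))), Dep v k w → w ∈ NN v → w ∈ KK v k := by
  intro k
  induction k with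
  | zero =>
    intro w hw _
    have hw' : w = 1 := hw
    rw [hw']
    exact (K0 v).one_mem
  | succ k ih =>
    intro w hw hN
    refine ⟨hN, ?_⟩
    obtain ⟨S, _, h, _, _⟩ := exists_S v k
    have h1 : ∀ b, sec v b w ∈ S := by
      intro b
      have := ih _ (hw.2 b) (sec_mem_NN v hN b)
      rw [← h] at this
      exact this
    have h2 := S.mul_mem (h1 false) (h1 true)
    rw [← h]
    exact h2

theorem KK_iff : ∀ k r, r ∈ KK v k ↔ r ∈ NN v ∧ (ta v)^[k] r ∈ KK v 0 := by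
  intro k
  induction k with
  | zero => exact fun r => ⟨fun h => ⟨K0_le v h, h⟩, fun h => h.2⟩
  | succ k ih =>
    intro r
    show (r ∈ NN v ∧ ta v r ∈ KK v k) ↔ _
    rw [ih, Function.iterate_succ_apply]
    exact ⟨fun h => ⟨h.1, h.2.2⟩, fun h => ⟨h.1, ta_mem_NN v h.1, h.2⟩⟩

end

theorem ks (hDEP : K_DEP) : K_KS := by
  intro n v
  refine ⟨fun k => ?_, KK_mono_succ v, KK_sub v, fun w hw => ?_, KK_iff v⟩
  · obtain ⟨S, h1, h2, _⟩ := exists_S v k
    exact ⟨S, h1, h2⟩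
  · obtain ⟨k, hk⟩ := hDEP n v w hw
    exact ⟨k, KK_of_dep v k w hk hw⟩

end Pool.Agent.Helper47.KN
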