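import Pool.Agent.Helper47.KN.Defs
import Pool.Agent.Helper62.WB.Defs

/-!
# Project KN (MP_08df5f_al): the notions in the main theorem
-/

set_option autoImplicit false

namespace Pool.Agent.Helper47.KN

open Pool.Agent.Helper62.WB

/-- the kneading group of `v` -/
def Kn {n : ℕ} (v : ZMod (n + 2) → Bool) : Type := KG v

/-- the group structure of the kneading group, a group of permutations of the binary sequences -/
instance {n : ℕ} (v : ZMod (n + 2) → Bool) : Group (Kn v) := inferInstanceAs (Group (KG v))

/-- the generator `a_i` of the kneading group -/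
def gen {n : ℕ} (v : ZMod (n + 2) → Bool) (i : ZMod (n + 2)) : Kn v :=
  ⟨ag v i, Subgroup.subset_closure ⟨i, rfl⟩⟩

/-- no subgroup of finite index of `Q` is isomorphic to an ascending HNN extension of the kneading
group of `v` -/
def NoAscK {n : ℕ} (v : ZMod (n + 2) → Bool) (Q : Type) [Group Q] : Prop :=
  ∀ H : Subgroup Q, H.FiniteIndex → ∀ (σ : Kn v →* Kn v) (hσ : Function.Injective σ),
    IsEmpty (H ≃* Asc σ hσ)

end Pool.Agent.Helper47.KN
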