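import Pool.Agent.Helper47.KN.Fin
import Pool.Agent.Helper47.KN.Stmt
import Pool.Agent.Helper62.GR.Main
import Pool.Agent.Helper80.GR.RS

/-!
# Project KN: the main theorem from the packets
-/

set_option autoImplicit false

namespace Pool.Agent.Helper47.KN

open Equiv Pool.Agent.Helper62.GR Pool.Agent.Helper62.WB Pool.Agent.Helper11.PS

/-- the statement of the main theorem -/
def K_MAIN : Prop := ∀ (n : ℕ) (v : ZMod (n + 2) → Bool),
  (∀ (σ : Kn v →* Kn v) (hσ : Function.Injective σ), RF (Asc σ hσ) → ¬ FP (Asc σ hσ)) ∧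
  (∀ (Q : Type) [Group Q], RF Q → FP Q → NoAscK v Q) ∧
  (∀ (G : Type) [Group G], Amen G → (VStable G ∨ StableS G) → FP G → ∀ (N : Subgroup G) [N.Normal],
    N.FG → NoAscK v (G ⧸ N)) ∧
  ((∀ i, v i = v 0) → ∀ k : ℕ, 1 ≤ k → ∃ (σ : Kn v →* Kn v) (hσ : Function.Injective σ),
    (∀ i, σ (gen v i) = gen v i ^ (2 * k + 1)) ∧ RF (Asc σ hσ) ∧ ¬ Function.Surjective σ)

theorem main_of' (hLR : K_LR) (hFIN : K_FIN) (hXA : K_XA) : K_MAIN := by
  intro n v
  have h1 : ∀ (σ : Kn v →* Kn v) (hσ : Function.Injective σ), RF (Asc σ hσ) → ¬ FP (Asc σ hσ) :=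
    fun σ hσ => hFIN n v σ hσ
  have hno : ∀ (Q : Type) [Group Q], RF Q → FP Q → NoAscK v Q := by
    intro Q _ hRF hFP H hH σ hσ
    refine ⟨fun e => h1 σ hσ (RF_of_equiv e (RF_subgroup hRF H))
      (FP_of_equiv e (Pool.Agent.Helper80.GR.rs Q H hFP hH))⟩
  refine ⟨h1, hno, ?_, ?_⟩
  · intro G _ hA hS hFP N _ hN
    have hQ : FP (G ⧸ N) := by
      apply qf G N hFP
      obtain ⟨S, hS⟩ := hN
      refine ⟨S, ?_⟩
      apply le_antisymm
      · rw [← hS, Subgroup.closure_le]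
        exact Subgroup.subset_normalClosure
      · apply Subgroup.normalClosure_le_normal
        rw [← hS]
        exact Subgroup.subset_closure
    exact hno (G ⧸ N) (rf_quot hA hS N hN) hQ
  · intro hv k hk
    obtain ⟨σ, hσ, hs, hd, hg⟩ := hXA n v hv k hk
    exact ⟨σ, hσ, hg, (st (KG v) (hLR n v) (KG_fg v) σ hσ).1.2 hd, hs⟩

end Pool.Agent.Helper47.KN
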