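import Pool.Agent.Helper47.KN.Goals

/-!
# Project KN: packet NAT
-/

set_option autoImplicit false

namespace Pool.Agent.Helper47.KN

open Equiv Pool.Agent.Helper62.GR

open scoped commutatorElement

section

variable {n : ℕ} (v : ZMod (n + 2) → Bool)

/-- `[F, N]` -/
def K0 : Subgroup (FreeGroup (ZMod (n + 2))) := ⁅(⊤ : Subgroup (FreeGroup (ZMod (n + 2)))), NN v⁆

instance K0_normal : (K0 v).Normal := by
  unfold K0
  infer_instance

theorem mem_KK0 (w : FreeGroup (ZMod (n + 2))) : w ∈ KK v 0 ↔ w ∈ K0 v := Iff.rfl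

theorem K0_le : K0 v ≤ NN v := Subgroup.commutator_le_right _ _

/-- the quotient map -/
def qq : FreeGroup (ZMod (n + 2)) →* FreeGroup (ZMod (n + 2)) ⧸ K0 v := QuotientGroup.mk' (K0 v)

theorem qq_eq_one (w : FreeGroup (ZMod (n + 2))) : qq v w = 1 ↔ w ∈ K0 v := by
  unfold qq
  rw [QuotientGroup.mk'_apply, QuotientGroup.eq_one_iff]

theorem qq_surj : Function.Surjective (qq v) := QuotientGroup.mk'_surjective _

theorem qq_comm {r : FreeGroup (ZMod (n + 2))} (hr : r ∈ NN v) (f : FreeGroup (ZMod (n + 2))) :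
    qq v f * qq v r = qq v r * qq v f := by
  have h : ⁅f, r⁆ ∈ K0 v := Subgroup.commutator_mem_commutator (Subgroup.mem_top f) hr
  rw [← qq_eq_one, map_commutatorElement, commutatorElement_eq_one_iff_mul_comm] at h
  exact h

theorem qq_center {r : FreeGroup (ZMod (n + 2))} (hr : r ∈ NN v) :
    qq v r ∈ Subgroup.center (FreeGroup (ZMod (n + 2)) ⧸ K0 v) := by
  rw [Subgroup.mem_center_iff]
  intro g
  obtain ⟨f, rfl⟩ := qq_surj v g
  exact qq_comm v hr f

theorem qq_ta_mul {x y : FreeGroup (ZMod (n + 2))} (hx : x ∈ NN v) (hy : y ∈ NN v) :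
    qq v (ta v (x * y)) = qq v (ta v x) * qq v (ta v y) := by
  unfold ta
  rw [sec_mul_of v _ _ _ (fl_of_NN v hy), sec_mul_of v _ _ _ (fl_of_NN v hy)]
  simp only [map_mul]
  rw [mul_assoc, mul_assoc, ← mul_assoc (qq v (sec v false y)),
    qq_comm v (sec_mem_NN v hx true) (sec v false y)]
  simp only [mul_assoc]

theorem qq_ta_congr (hKS : K_KS) {x y : FreeGroup (ZMod (n + 2))} (hx : x ∈ NN v) (hy : y ∈ NN v)
    (h : qq v x = qq v y) : qq v (ta v x) = qq v (ta v y) := by
  have h1 : y⁻¹ * x ∈ K0 v := by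
    rw [← qq_eq_one, map_mul, map_inv, h, inv_mul_cancel]
  have h2 : ta v (y⁻¹ * x) ∈ K0 v := by
    have := (hKS n v).2.1 0 ((mem_KK0 v _).2 h1)
    exact this.2
  have h3 : x = y * (y⁻¹ * x) := by group
  rw [h3, qq_ta_mul v hy (K0_le v h1), (qq_eq_one v _).2 h2, mul_one]

theorem ta_iter_mem : ∀ (k : ℕ) {x : FreeGroup (ZMod (n + 2))}, x ∈ NN v → (ta v)^[k] x ∈ NN v := by
  intro k
  induction k with
  | zero => intro x hx; exact hx
  | succ k ih =>
    intro x hx
    rw [Function.iterate_succ_apply]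
    exact ih (ta_mem_NN v hx)

theorem qq_ta_iter_congr (hKS : K_KS) : ∀ (k : ℕ) {x y : FreeGroup (ZMod (n + 2))}, x ∈ NN v →
    y ∈ NN v → qq v x = qq v y → qq v ((ta v)^[k] x) = qq v ((ta v)^[k] y) := by
  intro k
  induction k with
  | zero => intro x y _ _ h; exact h
  | succ k ih =>
    intro x y hx hy h
    rw [Function.iterate_succ_apply, Function.iterate_succ_apply]
    exact ih (ta_mem_NN v hx) (ta_mem_NN v hy) (qq_ta_congr v hKS hx hy h)

/-- lifts exist -/
theorem exists_lft (f : Perm X) (hf : ∀ g ∈ KG v, f * g * f⁻¹ ∈ KG v) :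
    ∃ β : FreeGroup (ZMod (n + 2)) →* FreeGroup (ZMod (n + 2)), Lft v f β := by
  choose b hb using fun i : ZMod (n + 2) => exists_ev v (hf _ (ag_mem v i))
  refine ⟨FreeGroup.lift b, ?_⟩
  have h : (ev v).comp (FreeGroup.lift b) = (MulAut.conj f).toMonoidHom.comp (ev v) := by
    apply FreeGroup.ext_hom
    intro i
    simp only [MonoidHom.comp_apply, FreeGroup.lift_apply_of]
    rw [hb, ev_of]
    simp
  intro w
  have := DFunLike.congr_fun h w
  simpa using this

theorem lft_mem {f : Perm X} {β : FreeGroup (ZMod (n + 2)) →* FreeGroup (ZMod (n + 2))}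
    (h : Lft v f β) {w : FreeGroup (ZMod (n + 2))} (hw : w ∈ NN v) : β w ∈ NN v := by
  rw [mem_NN, h w, (mem_NN v).1 hw, mul_one, mul_inv_cancel]

/-- a homomorphism from a cocycle -/
theorem mk_hom {F C : Type} [Group F] [CommGroup C] (fl : F → Bool) (N : Bool → F → C)
    (hN : ∀ b w w', N b (w * w') = N (xor b (fl w')) w * N b w') :
    ∃ μ : F →* C, ∀ w, μ w = N false w * N true w := by
  refine ⟨MonoidHom.mk' (fun w => N false w * N true w) ?_, fun w => rfl⟩
  intro w w'
  rw [hN, hN]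
  cases fl w'
  · simp only [Bool.xor_false]
    exact mul_mul_mul_comm _ _ _ _
  · simp only [Bool.xor_true, Bool.not_false, Bool.not_true]
    rw [mul_mul_mul_comm, mul_comm (N true w) (N false w)]

/-- the first step -/
theorem nat_step (hDEP : K_DEP) (hEX : K_EX) (hAU : K_AU) (f : Perm X)
    (α : FreeGroup (ZMod (n + 2)) →* FreeGroup (ZMod (n + 2))) (hf : SNg (KG v) f)
    (hα : Lft v f α) : ∃ (f₁ : Perm X) (β : FreeGroup (ZMod (n + 2)) →* FreeGroup (ZMod (n + 2))),
      SNg (KG v) f₁ ∧ Lft v f₁ β ∧ ∀ r ∈ NN v, qq v (ta v (α r)) = qq v (β (ta v r)) := by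
  obtain ⟨c, s, hs, hfs⟩ := hAU n v f hf
  obtain ⟨β, hβ⟩ := exists_lft v (s (!v 0)) (hs _).2.2.1
  refine ⟨s (!v 0), β, hs _, hβ, ?_⟩
  -- the basic relation
  have key : ∀ (b : Bool) (w : FreeGroup (ZMod (n + 2))) (x : X),
      cn (xor (xor b c) (fl (α w))) (ev v (sec v (xor b c) (α w)) (s b x)) =
        cn (xor (xor b (fl w)) c) (s (xor b (fl w)) (ev v (sec v b w) x)) := by
    intro b w x
    rw [← ev_cn, ← hfs, ← hfs, ← ev_cn, hα w]
    simp
  have hfl : ∀ w, fl (α w) = fl w := by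
    intro w
    have := (cn_inj (key false w fun _ => true)).1
    revert this
    cases c <;> cases fl (α w) <;> cases fl w <;> simp
  have key2 : ∀ (b : Bool) (w : FreeGroup (ZMod (n + 2))),
      ev v (sec v (xor b c) (α w)) * s b = s (xor b (fl w)) * ev v (sec v b w) := by
    intro b w
    ext1 x
    exact (cn_inj (key b w x)).2
  -- the words `h b`
  have hh : ∀ b, ∃ h, s b = ev v h * s (!v 0) := by
    intro b
    by_cases hb : b = !v 0
    · refine ⟨1, ?_⟩
      rw [hb, map_one, one_mul]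
    · have hb' : b = v 0 := by
        revert hb
        cases b <;> cases v 0 <;> simp
      have h1 := key2 (!v 0) (FreeGroup.of 0)
      rw [fl_of, sec_of, if_neg (by simp), map_one, mul_one] at h1
      refine ⟨sec v (xor (!v 0) c) (α (FreeGroup.of 0)), ?_⟩
      rw [h1, hb']
      congr 1
      simp
  choose h hh using hh
  -- the cocycles
  set A : Bool → FreeGroup (ZMod (n + 2)) → FreeGroup (ZMod (n + 2)) :=
    fun b w => sec v (xor b c) (α w) with hA
  set B : Bool → FreeGroup (ZMod (n + 2)) → FreeGroup (ZMod (n + 2)) :=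
    fun b w => h (xor b (fl w)) * β (sec v b w) * (h b)⁻¹ with hB
  have Amul : ∀ b w w', A b (w * w') = A (xor b (fl w')) w * A b w' := by
    intro b w w'
    simp only [hA]
    rw [map_mul, sec_mul, hfl]
    congr 2
    cases b <;> cases c <;> cases fl w' <;> rfl
  have Bmul : ∀ b w w', B b (w * w') = B (xor b (fl w')) w * B b w' := by
    intro b w w'
    simp only [hB]
    rw [sec_mul, fl_mul, map_mul]
    have : xor b (xor (fl w) (fl w')) = xor (xor b (fl w')) (fl w) := by
      cases b <;> cases fl w <;> cases fl w' <;> rfl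
    rw [this]
    group
  have AB : ∀ b w, ev v (A b w) = ev v (B b w) := by
    intro b w
    have h1 := key2 b w
    rw [← mul_right_cancel_iff (a := s b)]
    rw [h1]
    simp only [hB]
    rw [hh b, hh (xor b (fl w)), map_mul, map_mul, map_inv, hβ]
    group
  have hν : ∀ b w, (B b w)⁻¹ * A b w ∈ NN v := by
    intro b w
    rw [mem_NN, map_mul, map_inv, AB, inv_mul_cancel]
  have νmul : ∀ b w w', qq v ((B b (w * w'))⁻¹ * A b (w * w')) =
      qq v ((B (xor b (fl w')) w)⁻¹ * A (xor b (fl w')) w) * qq v ((B b w')⁻¹ * A b w') := by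
    intro b w w'
    have h1 := qq_comm v (hν (xor b (fl w')) w) (B b w')⁻¹
    rw [Amul, Bmul]
    calc _ = qq v (B b w')⁻¹ * qq v ((B (xor b (fl w')) w)⁻¹ * A (xor b (fl w')) w) *
          qq v (A b w') := by
          rw [← map_mul, ← map_mul]
          congr 1
          group
      _ = _ := by
          rw [h1, mul_assoc, ← map_mul]
  -- the homomorphism
  letI : CommGroup (Subgroup.center (FreeGroup (ZMod (n + 2)) ⧸ K0 v)) :=
    { (inferInstance : Group (Subgroup.center (FreeGroup (ZMod (n + 2)) ⧸ K0 v))) with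
      mul_comm := fun a b => Subtype.ext (Subgroup.mem_center_iff.1 b.2 a) }
  obtain ⟨μ, hμd⟩ := mk_hom (C := Subgroup.center (FreeGroup (ZMod (n + 2)) ⧸ K0 v)) fl
    (fun b w => ⟨qq v ((B b w)⁻¹ * A b w), qq_center v (hν b w)⟩) (by
      intro b w w'
      apply Subtype.ext
      exact νmul b w w')
  intro r hr
  have hμ : μ r = 1 := by
    obtain ⟨k, hk⟩ := hDEP n v r hr
    exact hEX.2.2.1 n _ μ r (hEX.2.1 n v k r hk)
  have hμ' : qq v ((B false r)⁻¹ * A false r) * qq v ((B true r)⁻¹ * A true r) = 1 := by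
    rw [hμd] at hμ
    exact congrArg Subtype.val hμ
  have hflr : fl r = false := fl_of_NN v hr
  have hBr : ∀ b, qq v (B b r) = qq v (β (sec v b r)) := by
    intro b
    simp only [hB]
    rw [hflr, Bool.xor_false, map_mul, map_mul, qq_comm v (lft_mem v hβ (sec_mem_NN v hr b)),
      mul_assoc, ← map_mul, mul_inv_cancel, map_one, mul_one]
  have hAN : ∀ b, A b r ∈ NN v := fun b => sec_mem_NN v (lft_mem v hα hr) _
  have hAr : ∀ b, qq v (A b r) = qq v (β (sec v b r)) * qq v ((B b r)⁻¹ * A b r) := by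
    intro b
    rw [← hBr, ← map_mul, mul_inv_cancel_left]
  have hta : qq v (ta v (α r)) = qq v (A false r) * qq v (A true r) := by
    unfold ta
    simp only [hA]
    rw [map_mul]
    cases c
    · rfl
    · simp only [Bool.xor_true, Bool.not_false, Bool.not_true]
      exact qq_comm v (sec_mem_NN v (lft_mem v hα hr) _) _
  rw [hta, hAr false, hAr true, mul_assoc, ← mul_assoc (qq v ((B false r)⁻¹ * A false r)),
    ← qq_comm v (hν false r) (β (sec v true r)), mul_assoc, hμ', mul_one, ← map_mul, ← map_mul]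
  rfl

end

theorem nat (hDEP : K_DEP) (hEX : K_EX) (hKS : K_KS) (hAU : K_AU) : K_NAT := by
  intro n v f α hf hα k
  suffices H : ∀ (k : ℕ) (f : Perm X)
      (α : FreeGroup (ZMod (n + 2)) →* FreeGroup (ZMod (n + 2))), SNg (KG v) f → Lft v f α →
      ∃ (f' : Perm X) (α' : FreeGroup (ZMod (n + 2)) →* FreeGroup (ZMod (n + 2))),
        SNg (KG v) f' ∧ Lft v f' α' ∧ ∀ r ∈ NN v, qq v ((ta v)^[k] (α r)) =
          qq v (α' ((ta v)^[k] r)) by
    obtain ⟨f', α', h1, h2, h3⟩ := H k f α hf hα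
    refine ⟨f', α', h1, h2, fun r hr => ?_⟩
    rw [mem_KK0, ← qq_eq_one, map_mul, map_inv, h3 r hr, mul_inv_cancel]
  intro k
  induction k with
  | zero => exact fun f α hf hα => ⟨f, α, hf, hα, fun r _ => rfl⟩
  | succ k ih =>
    intro f α hf hα
    obtain ⟨f₁, β, h1, h2, h3⟩ := nat_step v hDEP hEX hAU f α hf hα
    obtain ⟨f', α', h4, h5, h6⟩ := ih f₁ β h1 h2
    refine ⟨f', α', h4, h5, fun r hr => ?_⟩
    rw [Function.iterate_succ_apply, Function.iterate_succ_apply, ← h6 _ (ta_mem_NN v hr)]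
    exact qq_ta_iter_congr v hKS k (ta_mem_NN v (lft_mem v hα hr)) (lft_mem v h2 (ta_mem_NN v hr))
      (h3 r hr)

end Pool.Agent.Helper47.KN
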