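import Pool.Agent.Helper44.KN.DEP
import Pool.Agent.Helper44.KN.FR
import Pool.Agent.Helper44.KN.XA
import Pool.Agent.Helper45.KN.AU
import Pool.Agent.Helper47.KN.KS
import Pool.Agent.Helper47.KN.Main
import Pool.Agent.Helper47.KN.NAT
import Pool.Agent.Helper49.KN.DN
import Pool.Agent.Helper51.KN.EX
import Pool.Agent.Helper57.KN.RS
import Pool.Agent.Helper81.KN.CH
import Pool.Agent.Helper83.KN.LR

/-!
# Project KN: the main theorem
-/

set_option autoImplicit false

namespace Pool.Agent.Helper47.KN

theorem lr : K_LR := Pool.Agent.Helper83.KN.t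

theorem dep : K_DEP := Pool.Agent.Helper44.KN.t

theorem exs : K_EX := Pool.Agent.Helper51.KN.t

theorem kss : K_KS := ks dep

theorem au : K_AU := Pool.Agent.Helper45.KN.t lr

theorem natt : K_NAT := nat dep exs kss au

theorem dn : K_DN := Pool.Agent.Helper49.KN.t exs

theorem fr : K_FR := Pool.Agent.Helper44.KN.FR.t

theorem rs : K_RS := Pool.Agent.Helper57.KN.t

theorem ch : K_CH := Pool.Agent.Helper81.KN.t

theorem xa : K_XA := Pool.Agent.Helper44.KN.XA.t dep exs

theorem fin : K_FIN := fin_of lr dep exs kss natt dn fr rs ch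

theorem main : K_MAIN := main_of' lr fin xa

end Pool.Agent.Helper47.KN
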