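import Pool.Agent.Helper47.KN.Basic
import Pool.Agent.Helper62.GR.Words
import Pool.Agent.Helper62.WB.Defs

/-!
# Project KN (MP_08df5f_al): statements of the packets, with proofs

THEOREM.  Let `Γ = KG v` be a kneading group (for example the Basilica group; iterated monodromy groups
of the quadratic polynomials with periodic critical point).  If `σ` is an injective endomorphism of
`Γ` such that the ascending HNN extension `Γ_σ` is residually finite, then `Γ_σ` is not finitely
presented.

Idea.  `F` = free group on the letters, `N` = relations, `r|_b` = sections, `τ r = r|_0 r|_1`.  `τ` acts on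
`N / [F, N]` (this is the Schur multiplier of `Γ`), it is onto and locally nilpotent (all sections of a
relation of a deep level are trivial words).  Residual finiteness of `Γ_σ` implies that `σ` is the
conjugation by an automorphism `f` of the tree; so `τ ∘ σ = σ' ∘ τ` on `N / [F, N]`, `σ'` the
conjugation by a section of `f`, and `σ` preserves the kernels of the powers of `τ`.  If `Γ_σ` were
finitely presented, then `N` would be killed by `τ^k σ^m` for one `k`.  But `τ^k` is onto and `σ'` acts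
injectively on suitable finite 2-group quotients of `F` on which `N` is not trivial.

All facts in `Basic.lean` (`ag_cn`, `Ph_apply`, `fl_mul`, `sec_mul`, `ev_cn`, `mem_NN_iff`, `agr_ev`,
`sec_phi`, `sec_phi'`, `selfrep`, `KG_eq`, ..) may be used, and the facts on `X = ℕ → Bool` in
`Pool/Agent/Helper62/GR/Basic.lean` (`cn`, `tl`, `Agr`, `pr`).
-/

set_option autoImplicit false

namespace Pool.Agent.Helper47.KN

open Equiv Pool.Agent.Helper62.GR Pool.Agent.Helper62.WB

/-- a homeomorphism with `f G f⁻¹ ≤ G`, dense in `G` -/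
def SNg (G : Subgroup (Perm X)) (f : Perm X) : Prop :=
  CtX f ∧ CtX f⁻¹ ∧ (∀ g ∈ G, f * g * f⁻¹ ∈ G) ∧
    ∀ m, ∀ g ∈ G, ∃ h ∈ G, ∀ x, Agr m ((f * h * f⁻¹) x) (g x)

/-- the image of `σ` is dense -/
def Dsg {G : Subgroup (Perm X)} (σ : G →* G) : Prop :=
  ∀ m (g : G), ∃ h : G, ∀ x : X, Agr m ((σ h : Perm X) x) ((g : Perm X) x)

/-- `α` is a lift of the conjugation by `f` to the free group -/
def Lft {n : ℕ} (v : ZMod (n + 2) → Bool) (f : Perm X)
    (α : FreeGroup (ZMod (n + 2)) →* FreeGroup (ZMod (n + 2))) : Prop :=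
  ∀ w, ev v (α w) = f * ev v w * f⁻¹

/-- `G` acts by automorphisms of the binary tree, weakly branch -/
structure Wbr (G : Subgroup (Perm X)) : Prop where
  agr : ∀ g ∈ G, ∀ n x y, Agr n (g x) (g y) ↔ Agr n x y
  trans : ∀ n x y, ∃ g ∈ G, Agr n (g x) y
  rist : ∀ n x, ∃ g ∈ G, g ≠ 1 ∧ ∀ y, ¬ Agr n x y → g y = y

/-- PACKET LR (level transitivity and rigid stabilisers).
Proof.  `agr`: `agr_ev`.  `trans`: induction on the level.  For level `m + 1`: if `x 0 ≠ y 0` replace `x` by
`ag v 0 x` (`ag_cn`); so `x = cn b x'`, `y = cn b y'`; take `g ∈ KG v` with `Agr m (g x') y'` and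
`selfrep v hg b`.
`rist`: (1) let `[F, F]` be the commutator subgroup of the free group, `w ∈ [F, F]` with
`ev v w ≠ 1`: `w = ⁅of 1, of 0 * of 1 * (of 0)⁻¹⁆` does not work (it is a relation), but `w = ⁅of 0, of 1⁆`
does: `of 1` fixes the first level (`1 ≠ 0` in `ZMod (n + 2)`), its section at `v 1` is `of 0`, the other
section is `1`; `a_0 a_1 a_0⁻¹` has section `1` at the vertex `v 1` (the path goes through `!v 1`), so
`a_0 a_1 a_0⁻¹ ≠ a_1`, because `ag v 0 ≠ 1`.  (2) If `w ∈ [F, F]`, then `ex (-1) w = 1`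
(`Multiplicative ℤ` is commutative), so by `sec_phi`, `sec_phi'`, `fl_phi` the permutation `ev v (phi v w)`
fixes `cn (!v 0) x` and maps `cn (v 0) x` to `cn (v 0) (ev v w x)`, and `phi v w ∈ [F, F]`.  By
induction on the level `m` for `x = (v 0, v 0, v 0, ..)` there is an element `g = ev v (phi^m w) ≠ 1` of
`KG v` which fixes all `y` with `¬ Agr m x y`.  (3) For general `x` conjugate with `h ∈ KG v`,
`Agr m (h x₀) x` (`trans`, `agr`). -/
def K_LR : Prop := ∀ (n : ℕ) (v : ZMod (n + 2) → Bool), Wbr (KG v)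

/-- PACKET DEP (the sections of a relation at a deep level are trivial words).
Proof.  Work with lists `L : List (ZMod (n + 2) × Bool)`, `FreeGroup.mk L` (`(i, true)` is the letter
`a_i`, `(i, false)` its inverse; every element is of this form).  For a letter `l = (i, s)` and a vertex
`y` of the first level let `out y l = [(i - 1, s)]` if `y = v i` (`s = true`) resp. `y = vp v i`
(`s = false`), and `[]` otherwise; it is the section at `y` of the letter, which maps `y` to
`xor y (decide (i = 0))`.  `secL y [] = []`, `secL y (l :: L) = out (xor y (fl L)) l ++ secL y L`; then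
`sec v y (mk L) = mk (secL y L)`.  As `out y l` is nonempty for exactly one of the two values of `y`:
`(secL false L).length + (secL true L).length = L.length`.
(0) If both sections of `w ∈ N` are deep (`∃ k, Dep v k`), then so is `w` (`Dep v k w → Dep v (k + 1) w`,
maximum of the two numbers).  Deep is invariant under conjugation:
`sec v (xor b (fl g)) (g w g⁻¹) = (sec v b g) (sec v b w) (sec v b g)⁻¹` for `fl w = false`.
(1) Suppose that some `w ∈ N` is not deep, and let `L` be a list of minimal length with `w = mk L ∈ N` not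
deep.  By (0) one of the sections, at the vertex `b_0`, is not deep; it is in `N`; so by minimality
`(secL b_0 L).length = L.length`: all letters of `L` have a nonempty output along the path of `b_0`, and
`secL b_0 L = L.map S`, `S (i, s) = (i - 1, s)`.  So `mk (L.map S)` is again in `N` and not deep, of minimal
length, and we may continue: for every `k` there is a vertex `b_k` such that all letters of
`L.map S^k` have a nonempty output along the path of `b_k`.
(2) The path at time `k`: let `inn (i, s) k = v (i - k)` if `s = true`, `vp v (i - k)` if `s = false`, and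
`ott (i, s) k = vp v (i - k)` resp. `v (i - k)` (`vp v i = xor (v i) (decide (i = 0))`: the letter has
output at `y` iff `y = inn`, and then maps `y` to `ott`).  So if `l'`, `l` are neighbours in `L`
(`L = A ++ l :: l' :: B`, `l'` acts first), then `ott l' k = inn l k` for all `k`; and as `w` fixes `b_k`
(`mk (L.map S^k) ∈ N`), also `ott l k = inn l' k` for `l` the first element of `L` and `l'` the last.
(3) As functions of `k` (that is, of `j = i - k ∈ ZMod (n + 2)`): `v (i - ·) ≠ vp v (i' - ·)` for all `i, i'`: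
otherwise `vp v` is a translate of `v`, but the numbers of the values `true` differ by one.  So the
length of `L` is not `1`, and (cyclically) neighbouring letters have different `s`; neighbours `(i, s)`,
`(i', !s)` have `i ≠ i'`: otherwise they cancel, which contradicts the minimality (for the first and the
last letter: conjugate `w` by this letter, (0)).  `L` is not empty (`1` is deep).  So going around once we
find `i ≠ i'` with `vp v (i - ·) = vp v (i' - ·)` and `l ≠ l'` with `v (l - ·) = v (l' - ·)`.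
(4) So there are `d ≠ 0`, `e ≠ 0` with `vp v (x + d) = vp v x` and `v (x + e) = v x` for all `x`.  With the integer
valued functions `v`, `v' = v + c δ_0`, `c = ± 1`: `v' (x + d + e) = v (x + d + e) + c δ_0 (x + d + e)
= v (x + d) + c δ_0 (x + d + e) = v' (x + d) - c δ_0 (x + d) + c δ_0 (x + d + e)
= v' x - c δ_0 (x + d) + c δ_0 (x + d + e)`, and `= v' (x + e) = v x + c δ_0 (x + e)
= v' x - c δ_0 x + c δ_0 (x + e)`.  So `δ_0 x - δ_0 (x + e) = δ_0 (x + d) - δ_0 (x + d + e)`; at `x = 0`:
`1 - 0 = 0 - δ_0 (d + e)`, contradiction. -/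
def K_DEP : Prop := ∀ (n : ℕ) (v : ZMod (n + 2) → Bool), ∀ w ∈ NN v, ∃ k, Dep v k w

/-- PACKET EX (exponent sums).
Proof.  (1) `FreeGroup.induction_on` with `sec_mul`, `sec_inv`, `sec_of`, `fl_..` (the two vertices are
permuted by `w'`; a letter `a_(i+1)` has the output `a_i` at exactly one vertex).  (2) Induction on `k`
with (1) (`i = (i - 1) + 1`).  (3) `FreeGroup.induction_on`: for every `w`,
`ν w = ∏ i, ν (of i) ^ (toAdd (ex i w))`.  (4) By induction on `j`: `j = 0`: the parity of
`ex 0 w` is `fl w` (induction on `w`), and `fl w` is determined by `(ev v w x) 0` (`ev_cn`).  `j + 1`: by (1)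
`ex (j + 1) w` is determined by the two sections, which agree up to level `j + 1` (`ev_cn`, `Agr_cn`). -/
def K_EX : Prop :=
  (∀ (n : ℕ) (v : ZMod (n + 2) → Bool) (i : ZMod (n + 2)) (w : FreeGroup (ZMod (n + 2))),
    ex (i + 1) w = ex i (sec v false w) * ex i (sec v true w)) ∧
  (∀ (n : ℕ) (v : ZMod (n + 2) → Bool) (k : ℕ) (w : FreeGroup (ZMod (n + 2))), Dep v k w →
    ∀ i, ex i w = 1) ∧
  (∀ (n : ℕ) (A : Type) [CommGroup A] (ν : FreeGroup (ZMod (n + 2)) →* A)
    (w : FreeGroup (ZMod (n + 2))), (∀ i, ex i w = 1) → ν w = 1) ∧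
  (∀ (n : ℕ) (v : ZMod (n + 2) → Bool) (j : ℕ) (w w' : FreeGroup (ZMod (n + 2))),
    (∀ x, Agr (j + 1) (ev v w x) (ev v w' x)) →
    ((Multiplicative.toAdd (ex (j : ZMod (n + 2)) w) : ℤ) : ZMod 2) =
      ((Multiplicative.toAdd (ex (j : ZMod (n + 2)) w') : ℤ) : ZMod 2))

/-- PACKET KS (the subgroups `KK v k`; may assume DEP, EX).
Proof.  Let `K_0 = [F, N]`, a normal subgroup contained in `N`; modulo `K_0` the elements of `N` commute with
everything.  On `N` sections are multiplicative (`fl_of_NN`, `sec_mul_of`), so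
`τ (r r') ≡ τ r τ r'` modulo `K_0` for `r, r' ∈ N`.  `τ K_0 ⊆ K_0`: for `f ∈ F`, `r ∈ N` the sections of
`f r f⁻¹` are conjugates of those of `r`, at the permuted vertices (`sec_mul`, `sec_inv`), so
`τ (f r f⁻¹) ≡ τ r`.  By induction `KK v k` is a subgroup, normal, `KK v k ⊆ KK v (k + 1)`, and
`r ∈ KK v k ↔ r ∈ N ∧ τ^k r ∈ K_0` (`τ` maps `N` to `N`, `ta_mem_NN`).  If `Dep v k w` and `w ∈ N`, then
`w ∈ KK v k` (induction on `k`: `τ w = w|_0 w|_1`). -/
def K_KS : Prop := ∀ (n : ℕ) (v : ZMod (n + 2) → Bool),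
  (∀ k, ∃ S : Subgroup (FreeGroup (ZMod (n + 2))), S.Normal ∧ (S : Set _) = KK v k) ∧
  (∀ k, KK v k ⊆ KK v (k + 1)) ∧ (∀ k, KK v k ⊆ NN v) ∧ (∀ w ∈ NN v, ∃ k, w ∈ KK v k) ∧
  (∀ k r, r ∈ KK v k ↔ r ∈ NN v ∧ (ta v)^[k] r ∈ KK v 0)

/-- PACKET AU (a homeomorphism which conjugates `Γ` onto a dense subgroup of `Γ` respects the first
level; may assume LR).  Compare the proof of `Pool.Agent.Helper45.GR.au` (same structure).
Proof.  Let `G = KG v`, `F x = (f⁻¹ x) 0`.  (A1) For `g ∈ G`: `F (g x) = F (g y) ↔ F x = F y`, as in the file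
quoted (density, continuity of `f⁻¹`, and elements of `G` respect the equality of first letters).  So
for `g ∈ G` the element `χ g = xor (F (g x)) (F x)` does not depend on `x`, and `χ (g h) = xor (χ g) (χ h)`.
(A2) `χ g ≠ false` for some `g ∈ G`: otherwise `F` is constant (transitivity and continuity), but `f⁻¹` is
onto.  (A3) `χ a_i = false` for `i ≠ 0`.  Suppose `χ a_i = true`.  Let `L = {g ∈ G : χ g = false}`, a subgroup.
(a) `L` contains an element `l` which changes first letters: if `χ a_0 = false`, `l = a_0`; otherwise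
`l = a_0 a_i`.  (b) For `g ∈ G` and `b : Bool` there is `h ∈ L` with `h (cn b x) = cn b (g x)` for all `x`: let
`h₀ ∈ G` be such an element (`selfrep`); if `χ h₀ = true`, multiply it with `a_i` if `b ≠ v i` and with
`a_0 a_i a_0⁻¹` if `b = v i`: these elements fix all `cn b x` (`ag_cn`) and `χ = true` for both.  So `L` is
transitive on the levels (the proof of `trans` in LR), and as `F` is invariant under `L` and continuous,
it is constant: contradiction.  (A4) So `χ g` is `true` iff `g` changes first letters, for all `g ∈ G`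
(both are multiplicative and agree on the generators; `χ a_0 = true` by (A2)).  (A5) `x 0 = y 0`
implies `F x = F y`: as in the file quoted.  (A6) So `F x` depends only on `x 0`, and as `f⁻¹` is onto,
`F x = xor (x 0) c` for a constant `c`.  (B) So `f (cn b x) = cn (xor b c) (s b x)` with permutations `s b`
(`exists_pr` in the file quoted for `f` or for `ga * f`).
Then `SNg G (s b)`: continuity as in the file quoted.  `G` is normalised by nothing but we use only
sections: for `g ∈ G` let `h ∈ G` with `h (cn b x) = cn b (g x)` (`selfrep`); `f h f⁻¹ ∈ G` maps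
`cn (xor b c) x` to `cn (xor b c) ((s b * g * (s b)⁻¹) x)`, and if an element of `G`, `ev v w`, acts on all
`cn b' x` as `cn b' x ↦ cn b' (k x)`, then `k = ev v (sec v b' w) ∈ G` (`ev_cn`).  Density: given `m`, `g ∈ G`, let
`k ∈ G` with `k (cn b' x) = cn b' (g x)`, `b' = xor b c`, and `h' ∈ G` with
`Agr (m + 1) ((f h' f⁻¹) x) (k x)` for all `x`; then `h'` fixes the first letters (look at `cn b' x`), its section
at `b` is in `G` and has the required property. -/
def K_AU : Prop := ∀ (n : ℕ) (v : ZMod (n + 2) → Bool) (f : Perm X), SNg (KG v) f →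
  ∃ (c : Bool) (s : Bool → Perm X), (∀ b, SNg (KG v) (s b)) ∧
    ∀ b x, f (cn b x) = cn (xor b c) (s b x)

/-- PACKET NAT (naturality; may assume DEP, EX, KS, AU).
Proof.  `≡` is congruence modulo `K_0 = KK v 0 = [F, N]`.  For a lift `α` of the conjugation by `f`:
`α N ⊆ N`, `α K_0 ⊆ K_0`.  Induction on `k`, for all `f`, `α`.  `k = 0`: `f' = f`, `α' = α`.  Step: let `c`, `s` be as
in AU.  The generator `a_0` changes first letters and has trivial section at `!v 0`; the section of
`f a_0 f⁻¹ ∈ Γ` at the vertex `xor (!v 0) c` is `s (v 0) * (s (!v 0))⁻¹`, so this is in `Γ`.  Let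
`f₁ = s (!v 0)`, and choose words `h_b ∈ F` with `s b = ev v (h_b) * f₁` (`h_b = 1` for `b = !v 0`), and a lift
`β` of the conjugation by `f₁` (values on the letters, as `f₁ Γ f₁⁻¹ ≤ Γ`).  For `w ∈ F`, `b : Bool` let
`A_b w = sec v (xor b c) (α w)`, `B_b w = h_(w b) * β (sec v b w) * h_b⁻¹`, `w b = xor b (fl w)`.  Both are
cocycles: `A_b (w w') = A_(w' b) w * A_b w'` (note `fl (α w) = fl w`, compare first letters in
`ev v (α w) = f * ev v w * f⁻¹`), the same for `B`.  `ev v (A_b w) = ev v (B_b w)` (apply both sides of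
`ev v (α w) * f = f * ev v w` to `cn b x`).  So `ν_b w = (B_b w)⁻¹ * A_b w ∈ N`, and
`ν_b (w w') ≡ ν_(w' b) w * ν_b w'`.  So `w ↦ ν_false w * ν_true w` is a homomorphism of `F` to the abelian
group `N / K_0`; it kills `N`, by EX (2), (3) and DEP (to work in an abelian group use the quotient of
`N` by `K_0.subgroupOf N`, or the commutative subgroup `N K_0 / K_0` of `F / K_0`).  So for `r ∈ N`:
`τ (α r) = A.. * A.. ≡ B_false r * B_true r ≡ β (sec v false r) * β (sec v true r) = β (τ r)`
(`B_b r = h_b β(r|_b) h_b⁻¹ ≡ β (r|_b)` as `β (r|_b) ∈ N`).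
Now `τ^(k+1) (α r) = τ^k (τ (α r)) ≡ τ^k (β (τ r))` (`τ^k` respects congruence of elements of `N`: KS and its
proof: `τ (x y) ≡ τ x τ y` on `N`, `τ K_0 ⊆ K_0`) `≡ α' (τ^k (τ r))` by induction for `f₁`, `β`, `τ r ∈ N`. -/
def K_NAT : Prop := ∀ (n : ℕ) (v : ZMod (n + 2) → Bool) (f : Perm X)
  (α : FreeGroup (ZMod (n + 2)) →* FreeGroup (ZMod (n + 2))), SNg (KG v) f → Lft v f α →
  ∀ k, ∃ (f' : Perm X) (α' : FreeGroup (ZMod (n + 2)) →* FreeGroup (ZMod (n + 2))),
    SNg (KG v) f' ∧ Lft v f' α' ∧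
    ∀ r ∈ NN v, (ta v)^[k] (α r) * (α' ((ta v)^[k] r))⁻¹ ∈ KK v 0

/-- PACKET DN (density and homomorphisms to the group of order 2; may assume EX).
Proof.  Let `χ (α w) = 1` for all `w`.  For a letter `of i` let `h ∈ Γ` with
`Agr (n + 2) ((f h f⁻¹) x) (ev v (of i) x)` for all `x` (density), `h = ev v w`; so `ev v (α w)` agrees with
`ev v (of i)` up to level `n + 2`, and by EX (4) `ex j (α w)`, `ex j (of i)` have the same parity for
`j = 0, .., n + 1`, that is for all `j : ZMod (n + 2)`.  `χ u = ∏ j, χ (of j) ^ ex j u` (EX (3) and its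
proof; or apply EX (3) after multiplying) depends only on the parities, so
`χ (of i) = χ (α w) = 1`. -/
def K_DN : Prop := ∀ (n : ℕ) (v : ZMod (n + 2) → Bool) (f : Perm X)
  (α : FreeGroup (ZMod (n + 2)) →* FreeGroup (ZMod (n + 2))), SNg (KG v) f → Lft v f α →
  ∀ χ : FreeGroup (ZMod (n + 2)) →* Multiplicative (ZMod 2), χ.comp α = 1 → χ = 1

/-- PACKET FR (finite 2-groups; a fact on free groups).
Proof.  Let `Q` be a finite 2-group of minimal order such that some `h : F → Q` is not trivial on `N`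
(`Nat.find` on the orders), and `V` the intersection of the kernels of all homomorphisms `h : F → Q`;
`¬ N ≤ V`.  `Q` is nontrivial, so its centre `Z` is nontrivial (`IsPGroup.center_nontrivial`), `Q ⧸ Z` is a
2-group of smaller order, so all homomorphisms `F → Q ⧸ Z` kill `N`: so `h N ≤ Z` for all `h : F → Q`,
and `h [F, N] = 1`: `[F, N] ≤ V`.
Let `α` be as in the statement.  `α V ≤ V` as `h ∘ α` is again a homomorphism to `Q`.  `E = F ⧸ V` is finite
(there are finitely many `h`, as `ι` and `Q` are finite) and a 2-group (`x^(card Q) ∈ V`), and `α` induces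
`β : E → E`.  If `β` is not onto, its range is contained in a maximal subgroup `M` of `E`
(`IsCoatomic`, finite), which is normal (`Group.normalizerCondition_of_isNilpotent`,
`Subgroup.NormalizerCondition.normal_of_coatom`, `IsPGroup.isNilpotent`), and `E ⧸ M` is a 2-group without
proper nontrivial subgroups, so of order `2`, isomorphic to `Multiplicative (ZMod 2)`.  The
homomorphism `χ : F → E → E ⧸ M ≃ Multiplicative (ZMod 2)` is onto, so not trivial, but
`χ ∘ α = 1`: contradiction.  So `β` is onto, hence injective: `α w ∈ V → w ∈ V`. -/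
def K_FR : Prop := ∀ (ι : Type) [Finite ι] (N : Subgroup (FreeGroup ι)), N.Normal →
  (∃ (Q : Type) (_ : Group Q), Finite Q ∧ IsPGroup 2 Q ∧ ∃ h : FreeGroup ι →* Q,
    ∃ r ∈ N, h r ≠ 1) →
  ∃ V : Subgroup (FreeGroup ι), V.Normal ∧ ⁅(⊤ : Subgroup (FreeGroup ι)), N⁆ ≤ V ∧ ¬ N ≤ V ∧
    ∀ α : FreeGroup ι →* FreeGroup ι,
      (∀ χ : FreeGroup ι →* Multiplicative (ZMod 2), χ.comp α = 1 → χ = 1) →
      ∀ w, α w ∈ V ↔ w ∈ V

/-- PACKET RS (a relation which is not trivial in a 2-group).
Proof.  `r = ⁅a_1, a_0 a_1 a_0⁻¹⁆`.  `a_1` acts only on the `cn (v 1) x` and `a_0 a_1 a_0⁻¹` only on the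
`cn (!v 1) x` (`ag_cn`; `1 ≠ 0` in `ZMod (n + 2)`), both fix first letters, so they commute and `r ∈ N`.
`Q = DihedralGroup 8` of order 16, `h a_0 = r 1`, `h a_1 = sr 0`, `h a_i = 1` otherwise:
`h (a_0 a_1 a_0⁻¹) = r 1 * sr 0 * r (-1) = sr (-2)`, and `h r = ⁅sr 0, sr (-2)⁆ = (sr 0 * sr (-2))^2
= (r (-2))^2 = r (-4) ≠ 1`. -/
def K_RS : Prop := ∀ (n : ℕ) (v : ZMod (n + 2) → Bool),
  ∃ (Q : Type) (_ : Group Q), Finite Q ∧ IsPGroup 2 Q ∧
    ∃ h : FreeGroup (ZMod (n + 2)) →* Q, ∃ r ∈ NN v, h r ≠ 1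

/-- PACKET CH (finitely presented ascending HNN extensions).
You may use `Pool.Agent.Helper62.GR.fpi` (finite presentability does not depend on the generators,
`Helper62/GR/FPI.lean`), `Pool.Agent.Helper35.WB.nf` (normal form), `Pool.Agent.Helper62.WB.t_conj`.
Proof.  Let `F = FreeGroup ι`, `K̂_k = {w : ∃ m, α^m w ∈ K k}`.  It is a normal subgroup of `F`
(`α (K k) ≤ K k`; for products take the maximum of the two exponents), contained in `ker π`
(`π (α^m w) = σ^m (π w)`, `σ` injective), and `α w ∈ K̂_k ↔ w ∈ K̂_k`.  So `α` induces an injective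
endomorphism `α_k` of `E_k = F ⧸ K̂_k`.  `G_k = Asc α_k`.  Let `P = FreeGroup (Option ι)`, and
`p_k : P → G_k`, `some i ↦` (class of `of i`), `none ↦ t`; `p : P → Asc σ`, `some i ↦ of (π (of i))`,
`none ↦ t`, onto.  (1) For every `z ∈ P` there are `a, b : ℕ` and `w ∈ F` such that
`p z = t^(-a) (π w) t^b` and `p_k z = t^(-a) w t^b` for all `k`: the set of the `z` with this property
contains the generators, and is closed under products and inverses:
`t^(-a) w t^b * t^(-a') w' t^b' = t^(-(a + x)) * α^x w * α^y w' * t^(b' + y)` with `x, y : ℕ`,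
`b + x = a' + y`: indeed `t^b t^(-a') = t^(-x) t^y`, `w t^(-x) = t^(-x) (α^x w)`, `t^y w' = (α^y w') t^y`.
(2) Let `p z = 1`.  The homomorphism `χ` of `Asc σ` to `Multiplicative ℤ` with `χ t = ofAdd 1`,
`χ Γ = 1` gives `a = b`, so `π w = 1` (`HNNExtension.of_injective`), so `w ∈ K k` for some `k`, and `p_k z = 1`
for all larger `k` too (monotone).  (3) By `fpi` the kernel of `p` is the normal closure of a finite
set; so by (2) there is `k` with `ker p ≤ ker p_k`.  For `w ∈ ker π` the image `w'` of `w` in `P` is in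
`ker p`, so `1 = p_k w' = of (class of w)`, and `w ∈ K̂_k` (`HNNExtension.of_injective`). -/
def K_CH : Prop := ∀ (ι : Type) [Fintype ι] (Γ : Type) [Group Γ] (π : FreeGroup ι →* Γ),
  Function.Surjective π → ∀ (σ : Γ →* Γ) (hσ : Function.Injective σ)
  (α : FreeGroup ι →* FreeGroup ι), (∀ w, π (α w) = σ (π w)) →
  ∀ K : ℕ → Subgroup (FreeGroup ι), (∀ k, (K k).Normal) → Monotone K → (∀ k, K k ≤ π.ker) →
  (∀ w ∈ π.ker, ∃ k, w ∈ K k) → (∀ k, ∀ w ∈ K k, α w ∈ K k) → FP (Asc σ hσ) →
  ∃ k, ∀ w ∈ π.ker, ∃ m, α^[m] w ∈ K k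

/-- PACKET XA (examples with `Γ_σ` residually finite and `σ` not onto; may assume DEP, EX).
Proof.  Let `c = v 0 = v i` for all `i`, `u = 2 k + 1`, `z = a_(-1)` (`ag v (-1)`).
(1) There is a permutation `t` of `X` with `t (cn c x) = cn c (t x)`, `t (cn (!c) x) = cn (!c) (z^(-k) (t x))`:
for example define `T 0 = 1` and `T (m + 1) = pr .. ..` with the sections `T m` at `c` and
`z^(-k) * T m` at `!c`; `Agr m (T m x) (T (m + 1) x)` for all `x`, and the same for the inverses (all `T m`
are automorphisms of the tree), so `(t x) j = (T (j + 1) x) j` is a permutation, with inverse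
`(t⁻¹ x) j = ((T (j + 1))⁻¹ x) j`; `t` is an automorphism of the tree:
`Agr m (t x) (t y) ↔ Agr m x y`.
(2) `t a_i = a_i^u t` for all `i`: show `Agr m (t (a_i x)) (a_i^u (t x))` for all `x`, `i` by induction on `m`, from
the recursion for `cn c x` and `cn (!c) x`.  `i ≠ 0`: `a_i (cn c x) = cn c (a_(i-1) x)`,
`a_i (cn (!c) x) = cn (!c) x`.  `i = 0`: `a_0 (cn c x) = cn (!c) (z x)`, `a_0 (cn (!c) x) = cn c x`, so
`a_0^2 (cn b x) = cn b (z x)`, `a_0^u (cn c x) = cn (!c) (z^(k+1) x)`, `a_0^u (cn (!c) x) = cn c (z^k x)`;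
and `z^(-k) t z = z^(-k) z^u t = z^(k+1) t`.
(3) So `t g t⁻¹ ∈ Γ` for `g ∈ Γ`; `σ g = t g t⁻¹` is injective.  Dense: for fixed `m` the group `Γ` acts on the
finite set of words of length `m` (classes of `Agr m`), `t` too; `Γ_m` = the image of `Γ`, a finite
group; `t Γ_m t⁻¹ ≤ Γ_m` have the same order, so are equal.
(4) Not onto: `a_0` is not in the image: if `a_0 = σ g = t g t⁻¹`, `g = ev v w`, then with the endomorphism
`ρ` of the free group, `ρ (of i) = (of i)^u`, `ev v (ρ w) = t (ev v w) t⁻¹ = a_0`, so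
`ρ w * (of 0)⁻¹ ∈ N`, and by DEP and EX (2) `ex 0 (ρ w) = ex 0 (of 0)`; but `ex 0 (ρ w)` is a multiple of
`u ≥ 3`, contradiction. -/
def K_XA : Prop := ∀ (n : ℕ) (v : ZMod (n + 2) → Bool), (∀ i, v i = v 0) → ∀ k : ℕ, 1 ≤ k →
  ∃ σ : KG v →* KG v, Function.Injective σ ∧ ¬ Function.Surjective σ ∧ Dsg σ ∧
    ∀ i, σ ⟨ag v i, ag_mem v i⟩ = ⟨ag v i, ag_mem v i⟩ ^ (2 * k + 1)

/-! ### the assembly (helper47) -/

/-- TRG (helper47): the tree of a weakly branch subgroup of `Perm X` -/
def K_TR : Prop := ∀ G : Subgroup (Perm X), Wbr G →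
  ∃ (T : RTree) (a : TAct T G) (e : X ≃ T.Bd), a.WeaklyBranch ∧
    (∀ (g : G) (x : X), e ((g : Perm X) x) = a.bd g (e x)) ∧
    (∀ n x y, (e x).1 n = (e y).1 n ↔ Agr n x y)

/-- STG (helper47): the homeomorphism -/
def K_ST : Prop := ∀ G : Subgroup (Perm X), Wbr G → Group.FG G →
  ∀ (σ : G →* G) (hσ : Function.Injective σ), (RF (Asc σ hσ) ↔ Dsg σ) ∧
  (Dsg σ → ∃ f : Perm X, CtX f ∧ CtX f⁻¹ ∧ ∀ g : G, f * (g : Perm X) = (σ g : Perm X) * f)

/-- FIN (helper47): the main step.
Proof.  Let `Γ_σ` be residually finite.  By ST there is `f` with `SNg (KG v) f` and `f g f⁻¹ = σ g`.  Let `α` be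
a lift, `V` as in FR (applied to `N`, by RS), and suppose `Γ_σ` finitely presented.  By CH (with `K k` from KS;
`α (K k) ≤ K k` by NAT and KS) there is `k` such that for all `r ∈ N` there is `m` with
`α^m r ∈ K k`, i.e. `τ^k (α^m r) ∈ K_0`.  Let `y ∈ N`, `y ∉ V`, and `r = φ^k y`; `φ y ∈ N` and `τ (φ y) = y` as the
sections of `φ y` are `y` and `1` (`sec_phi`, `sec_phi'`, `ex (-1) y = 1` by EX and DEP), so `r ∈ N`,
`τ^k r = y`.  Let `f'`, `α'` be as in NAT for `k`.  Then `τ^k (α^m r) ≡ α'^m (τ^k r) = α'^m y` modulo `K_0` (by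
induction on `m`: `τ^k (α (α^(m-1) r)) ≡ α' (τ^k (α^(m-1) r)) ≡ α' (α'^(m-1) y)`), so `α'^m y ∈ K_0 ≤ V`,
and `y ∈ V` by FR and DN for `α'`: contradiction. -/
def K_FIN : Prop := ∀ (n : ℕ) (v : ZMod (n + 2) → Bool) (σ : KG v →* KG v)
  (hσ : Function.Injective σ), RF (Asc σ hσ) → ¬ FP (Asc σ hσ)

end Pool.Agent.Helper47.KN
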